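import Pool.Agent.Lib.MP_f5ec7d_an.Stat

set_option autoImplicit false

namespace Pool.Agent.Lib.F5

open Matrix Finset
open scoped ComplexOrder

variable {n : ℕ} {f : ℝ → ℝ} {L : ℝ}

theorem Nice.continuous_max (h : Nice f L) : Continuous (fun t : ℝ => f (max t 0)) := by
  have hLip : LipschitzWith (Real.toNNReal L) (fun t : ℝ => f (max t 0)) := by
    apply LipschitzWith.of_dist_le_mul
    have key : ∀ t u : ℝ, t ≤ u → dist (f (max t 0)) (f (max u 0)) ≤ L * dist t u := by
      intro t u htu
      have h1 : max t 0 ≤ max u 0 := max_le_max htu le_rfl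
      have h2 := h.lip (le_max_right t 0) h1
      have h3 : f (max t 0) ≤ f (max u 0) := h.mono (Set.mem_Ici.2 (le_max_right _ _))
        (Set.mem_Ici.2 (le_max_right _ _)) h1
      have h4 : max u 0 - max t 0 ≤ u - t := by
        rcases le_total t 0 with h5 | h5 <;> rcases le_total u 0 with h6 | h6
        · rw [max_eq_right h5, max_eq_right h6]; linarith
        · rw [max_eq_right h5, max_eq_left h6]; linarith
        · rw [max_eq_left h5, max_eq_right h6]; linarith
        · rw [max_eq_left h5, max_eq_left h6]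
      rw [Real.dist_eq, Real.dist_eq, abs_sub_comm, abs_sub_comm t u,
        abs_of_nonneg (by linarith), abs_of_nonneg (by linarith)]
      exact h2.trans (mul_le_mul_of_nonneg_left h4 h.Lpos.le)
    intro t u
    rw [Real.coe_toNNReal _ h.Lpos.le]
    rcases le_total t u with htu | htu
    · exact key t u htu
    · rw [dist_comm, dist_comm t u]; exact key u t htu
  exact hLip.continuous

theorem isCompact_unitary :
    IsCompact {M : Matrix (Fin n) (Fin n) ℂ | M ∈ Matrix.unitaryGroup (Fin n) ℂ} := by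
  have hb : IsCompact {M : Matrix (Fin n) (Fin n) ℂ | ∀ i j, ‖M i j‖ ≤ 1} := by
    have h1 : IsCompact (Set.pi Set.univ (fun _ : Fin n =>
        Set.pi Set.univ (fun _ : Fin n => Metric.closedBall (0:ℂ) 1))) :=
      isCompact_univ_pi (fun _ => isCompact_univ_pi (fun _ => isCompact_closedBall 0 1))
    have h2 : {M : Matrix (Fin n) (Fin n) ℂ | ∀ i j, ‖M i j‖ ≤ 1} =
        (Set.pi Set.univ (fun _ : Fin n =>
        Set.pi Set.univ (fun _ : Fin n => Metric.closedBall (0:ℂ) 1))) := by
      apply Set.ext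
      intro M
      constructor
      · intro hM i _ j _
        exact mem_closedBall_zero_iff.2 (hM i j)
      · intro hM i j
        exact mem_closedBall_zero_iff.1 (hM i (Set.mem_univ i) j (Set.mem_univ j))
    rw [h2]; exact h1
  apply hb.of_isClosed_subset
  · have h3 : {M : Matrix (Fin n) (Fin n) ℂ | M ∈ Matrix.unitaryGroup (Fin n) ℂ} =
        {M : Matrix (Fin n) (Fin n) ℂ | M * star M = 1} := by
      ext M
      exact Matrix.mem_unitaryGroup_iff
    rw [h3]
    apply isClosed_eq
    · exact continuous_id.matrix_mul continuous_star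
    · exact continuous_const
  · intro M hM i j
    exact entry_norm_bound_of_unitary hM i j

theorem continuous_cj {ι : Type*} [TopologicalSpace ι] {U : ι → Matrix (Fin n) (Fin n) ℂ}
    {v : ι → Fin n → ℝ} (hU : Continuous U) (hv : Continuous v) :
    Continuous (fun p => cj (U p) (v p)) := by
  unfold cj dg
  have hd : Continuous (fun p => Matrix.diagonal (fun i => ((v p i : ℝ) : ℂ))) := by
    apply Continuous.matrix_diagonal
    apply continuous_pi
    intro i
    exact Complex.continuous_ofReal.comp ((continuous_apply i).comp hv)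
  exact (hU.matrix_mul hd).matrix_mul hU.matrix_conjTranspose

theorem continuous_nsq : Continuous (nsq (n := n)) := by
  unfold nsq
  exact Complex.continuous_re.comp
    (continuous_id.matrix_mul continuous_id.matrix_conjTranspose).matrix_trace

/-- Main theorem (K). -/
theorem main_K (h : Nice f L) {P Q : Matrix (Fin n) (Fin n) ℂ}
    (hP : P ∈ Matrix.unitaryGroup (Fin n) ℂ) (hQ : Q ∈ Matrix.unitaryGroup (Fin n) ℂ)
    {a b c : Fin n → ℝ} (ha : ∀ i, 0 ≤ a i) (hb : ∀ i, 0 ≤ b i) (hc : ∀ i, 0 ≤ c i)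
    (hC : dg c = cj P a + cj Q b) :
    ∃ U ∈ Matrix.unitaryGroup (Fin n) ℂ, ∃ W ∈ Matrix.unitaryGroup (Fin n) ℂ,
      ∃ x : Fin n → ℝ, (∀ i, 0 ≤ x i) ∧ (∀ i, x i ≤ b i) ∧
        dg (fun i => f (c i)) = cj U (fun i => f (a i)) + cj W (fun i => f (x i)) := by
  classical
  set UG : Set (Matrix (Fin n) (Fin n) ℂ) := {M | M ∈ Matrix.unitaryGroup (Fin n) ℂ} with hUG
  set D : Set (Matrix (Fin n) (Fin n) ℂ × Matrix (Fin n) (Fin n) ℂ × (Fin n → ℝ)) :=
    UG ×ˢ (UG ×ˢ Set.Icc (0 : Fin n → ℝ) b) with hD
  have hDc : IsCompact D := isCompact_unitary.prod (isCompact_unitary.prod isCompact_Icc)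
  have hDmem : ∀ U W x, (U, W, x) ∈ D ↔ U ∈ Matrix.unitaryGroup (Fin n) ℂ ∧
      W ∈ Matrix.unitaryGroup (Fin n) ℂ ∧ (∀ i, 0 ≤ x i) ∧ (∀ i, x i ≤ b i) := by
    intro U W x
    simp only [hD, hUG, Set.mem_prod, Set.mem_ofPred_eq, Set.mem_Icc, Pi.le_def, Pi.zero_apply]
  -- truncated versions, continuous in all variables
  let Rs : ℝ → Matrix (Fin n) (Fin n) ℂ × Matrix (Fin n) (Fin n) ℂ × (Fin n → ℝ) →
      Matrix (Fin n) (Fin n) ℂ := fun s p =>
    dg (fun k => FF f L s (c k)) - cj p.1 (fun i => FF f L s (a i)) -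
      cj p.2.1 (fun i => FF f L s (max (p.2.2 i) 0))
  let Ds : Matrix (Fin n) (Fin n) ℂ × Matrix (Fin n) (Fin n) ℂ × (Fin n → ℝ) →
      Matrix (Fin n) (Fin n) ℂ := fun p =>
    dg (fun k => gg f L (c k)) - cj p.1 (fun i => gg f L (a i)) -
      cj p.2.1 (fun i => gg f L (max (p.2.2 i) 0))
  have hgc : Continuous (fun t : ℝ => gg f L (max t 0)) := by
    unfold gg
    exact (continuous_const.mul (continuous_id.max continuous_const)).sub h.continuous_max
  have hFc : ∀ s, Continuous (fun t : ℝ => FF f L s (max t 0)) := by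
    intro s
    unfold FF
    exact (continuous_const.mul (continuous_id.max continuous_const)).sub
      (continuous_const.mul hgc)
  have hRsc : ∀ s, Continuous (Rs s) := by
    intro s
    apply Continuous.sub
    · apply Continuous.sub continuous_const
      exact continuous_cj continuous_fst continuous_const
    · apply continuous_cj (continuous_fst.comp continuous_snd)
      apply continuous_pi
      intro i
      exact (hFc s).comp ((continuous_apply i).comp (continuous_snd.comp continuous_snd))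
  have hDsc : Continuous Ds := by
    apply Continuous.sub
    · apply Continuous.sub continuous_const
      exact continuous_cj continuous_fst continuous_const
    · apply continuous_cj (continuous_fst.comp continuous_snd)
      apply continuous_pi
      intro i
      exact hgc.comp ((continuous_apply i).comp (continuous_snd.comp continuous_snd))
  have hne : (P, Q, b) ∈ D := (hDmem _ _ _).2 ⟨hP, hQ, hb, fun _ => le_rfl⟩
  have hDne : D.Nonempty := ⟨_, hne⟩
  -- bound on `Ds`
  obtain ⟨pM, _, hpM⟩ := hDc.exists_isMaxOn hDne (continuous_nsq.comp hDsc).continuousOn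
  set M : ℝ := nsq (Ds pM) with hM
  have hMb : ∀ p ∈ D, nsq (Ds p) ≤ M := fun p hp => hpM hp
  have hM0 : 0 ≤ M := nsq_nonneg _
  -- the minimiser at time `s`
  have hmin : ∀ s, ∃ p ∈ D, ∀ p' ∈ D, nsq (Rs s p) ≤ nsq (Rs s p') := by
    intro s
    obtain ⟨p, hp, hp'⟩ := hDc.exists_isMinOn hDne (continuous_nsq.comp (hRsc s)).continuousOn
    exact ⟨p, hp, fun p' hp'' => hp' hp''⟩
  -- residual on `D`
  have hRsD : ∀ s U W x, (∀ i, 0 ≤ x i) → Rs s (U, W, x) = dg (fun k => FF f L s (c k)) -
      cj U (fun i => FF f L s (a i)) - cj W (fun i => FF f L s (x i)) := by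
    intro s U W x hx
    have : (fun i => FF f L s (max (x i) 0)) = (fun i => FF f L s (x i)) := by
      funext i; rw [max_eq_left (hx i)]
    show _ - _ - cj W (fun i => FF f L s (max (x i) 0)) = _
    rw [this]
  have hDsD : ∀ U W x, (∀ i, 0 ≤ x i) → Ds (U, W, x) = dg (fun k => gg f L (c k)) -
      cj U (fun i => gg f L (a i)) - cj W (fun i => gg f L (x i)) := by
    intro U W x hx
    have : (fun i => gg f L (max (x i) 0)) = (fun i => gg f L (x i)) := by
      funext i; rw [max_eq_left (hx i)]
    show _ - _ - cj W (fun i => gg f L (max (x i) 0)) = _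
    rw [this]
  -- the step
  have hstep : ∀ s τ : ℝ, 0 ≤ s → s < 1 → 0 ≤ τ → ∀ p ∈ D,
      (∀ p' ∈ D, nsq (Rs s p) ≤ nsq (Rs s p')) →
      nsq (Rs (s + τ) p) ≤ nsq (Rs s p) + τ ^ 2 * M := by
    rintro s τ hs0 hs1 hτ ⟨U, W, x⟩ hp hpmin
    obtain ⟨hU, hW, hx, hxb⟩ := (hDmem _ _ _).1 hp
    set R := Rs s (U, W, x) with hR
    set Δ := Ds (U, W, x) with hΔ
    have hRe := hRsD s U W x hx
    rw [← hR] at hRe
    have hΔe := hDsD U W x hx
    rw [← hΔ] at hΔe
    have hdgH : ∀ v : Fin n → ℝ, (dg v)ᴴ = dg v := dg_conjTranspose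
    have hRH : Rᴴ = R := by
      rw [hRe, Matrix.conjTranspose_sub, Matrix.conjTranspose_sub, hdgH, cj_conjTranspose,
        cj_conjTranspose]
    have hΔH : Δᴴ = Δ := by
      rw [hΔe, Matrix.conjTranspose_sub, Matrix.conjTranspose_sub, hdgH, cj_conjTranspose,
        cj_conjTranspose]
    have hRA : R * cj U (fun i => FF f L s (a i)) = cj U (fun i => FF f L s (a i)) * R := by
      set Z := dg (fun k => FF f L s (c k)) - cj W (fun i => FF f L s (x i)) with hZ
      have hZH : Zᴴ = Z := by
        rw [hZ, Matrix.conjTranspose_sub, hdgH, cj_conjTranspose]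
      have hRZ : R = Z - cj U (fun i => FF f L s (a i)) := by
        rw [hRe, hZ]; abel
      rw [hRZ]
      apply comm_min hZH
      intro V hV
      have hmem : (V * U, W, x) ∈ D := (hDmem _ _ _).2 ⟨mul_mem hV hU, hW, hx, hxb⟩
      have h1 := hpmin _ hmem
      rw [hRsD s (V * U) W x hx, hRZ] at h1
      have h2 : dg (fun k => FF f L s (c k)) - cj (V * U) (fun i => FF f L s (a i)) -
          cj W (fun i => FF f L s (x i)) = Z - cj (V * U) (fun i => FF f L s (a i)) := by
        rw [hZ]; abel
      rw [h2] at h1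
      exact h1
    have hRX : R * cj W (fun i => FF f L s (x i)) = cj W (fun i => FF f L s (x i)) * R := by
      set Z := dg (fun k => FF f L s (c k)) - cj U (fun i => FF f L s (a i)) with hZ
      have hZH : Zᴴ = Z := by
        rw [hZ, Matrix.conjTranspose_sub, hdgH, cj_conjTranspose]
      have hRZ : R = Z - cj W (fun i => FF f L s (x i)) := by
        rw [hRe, hZ]
      rw [hRZ]
      apply comm_min hZH
      intro V hV
      have hmem : (U, V * W, x) ∈ D := (hDmem _ _ _).2 ⟨hU, mul_mem hV hW, hx, hxb⟩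
      have h1 := hpmin _ hmem
      rw [hRsD s U (V * W) x hx, hRZ, ← hZ] at h1
      exact h1
    have hneg := neg_prop (b := b) (R := R) h hs0 hs1 hW hx hxb hRH (by
      intro W' hW' x' hx' hx'b
      have hmem : (U, W', x') ∈ D := (hDmem _ _ _).2 ⟨hU, hW', hx', hx'b⟩
      have h1 := hpmin _ hmem
      rw [hRsD s U W' x' hx'] at h1
      have h2 : R + cj W (fun i => FF f L s (x i)) - cj W' (fun i => FF f L s (x' i)) =
          dg (fun k => FF f L s (c k)) - cj U (fun i => FF f L s (a i)) -
          cj W' (fun i => FF f L s (x' i)) := by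
        rw [hRe]; abel
      rw [h2]
      exact h1)
    have hCe : dg (fun k => FF f L s (c k)) = cj U (fun i => FF f L s (a i)) +
        cj W (fun i => FF f L s (x i)) + R := by
      rw [hRe]; abel
    have hmain := main_ineq h hs0 hs1 hU hW ha hc hx hRH hCe hRA hRX hneg
    rw [← hΔe] at hmain
    -- residual at `s + τ`
    have hres : Rs (s + τ) (U, W, x) = R - (τ : ℂ) • Δ := by
      have hFg : ∀ t, FF f L (s + τ) t = FF f L s t - τ * gg f L t := by
        intro t; unfold FF; ring
      have hsm : ∀ (V : Matrix (Fin n) (Fin n) ℂ) (v w : Fin n → ℝ),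
          cj V (fun i => v i - τ * w i) = cj V v - (τ : ℂ) • cj V w := by
        intro V v w
        have h1 : (τ : ℂ) • cj V w = cj V (fun i => τ * w i) := by
          unfold cj
          have : dg (fun i => τ * w i) = (τ : ℂ) • dg w := by
            unfold dg
            rw [← Matrix.diagonal_smul]
            congr 1
            funext i
            simp
          rw [this, Matrix.mul_smul, Matrix.smul_mul]
        rw [h1, cj_sub]
      have hdg1 : ∀ v : Fin n → ℝ, dg v = cj 1 v := by
        intro v; unfold cj; simp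
      rw [hRsD (s + τ) U W x hx, hRe, hΔe]
      simp only [hFg]
      rw [hdg1, hdg1, hdg1 (fun k => gg f L (c k)), hsm, hsm, hsm, smul_sub, smul_sub]
      abel
    rw [hres]
    have hτΔH : ((τ : ℂ) • Δ)ᴴ = (τ : ℂ) • Δ := by
      rw [Matrix.conjTranspose_smul, hΔH]
      congr 1
      simp
    rw [nsq_sub_of_herm hRH hτΔH]
    have h1 : (Matrix.trace (R * ((τ : ℂ) • Δ))).re = τ * (Matrix.trace (R * Δ)).re := by
      rw [Matrix.mul_smul, Matrix.trace_smul, smul_eq_mul, Complex.re_ofReal_mul]
    have h2 : nsq ((τ : ℂ) • Δ) = τ ^ 2 * nsq Δ := by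
      unfold nsq
      rw [Matrix.conjTranspose_smul, Matrix.smul_mul, Matrix.mul_smul, smul_smul,
        Matrix.trace_smul, smul_eq_mul]
      have : (τ : ℂ) * star (τ : ℂ) = ((τ ^ 2 : ℝ) : ℂ) := by
        simp [sq]
      rw [this, Complex.re_ofReal_mul]
    rw [h1, h2]
    have h3 : 0 ≤ τ * (Matrix.trace (R * Δ)).re := mul_nonneg hτ hmain
    have h4 : τ ^ 2 * nsq Δ ≤ τ ^ 2 * M := mul_le_mul_of_nonneg_left (hMb _ hp) (sq_nonneg _)
    linarith
  -- induction over a partition of `[0,1]`
  have hind : ∀ N : ℕ, 0 < N → ∀ i : ℕ, i ≤ N → ∃ p ∈ D,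
      nsq (Rs ((i : ℝ) / N) p) ≤ i * (M / (N : ℝ) ^ 2) := by
    intro N hN i
    have hNr : (0 : ℝ) < N := by exact_mod_cast hN
    induction i with
    | zero =>
      intro _
      refine ⟨_, hne, ?_⟩
      have h0 : Rs 0 (P, Q, b) = 0 := by
        rw [hRsD 0 P Q b hb]
        have hF0 : ∀ t, FF f L 0 t = L * t := by intro t; unfold FF; ring
        simp only [hF0]
        have hsm : ∀ (V : Matrix (Fin n) (Fin n) ℂ) (w : Fin n → ℝ),
            cj V (fun i => L * w i) = (L : ℂ) • cj V w := by
          intro V w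
          unfold cj
          have : dg (fun i => L * w i) = (L : ℂ) • dg w := by
            unfold dg
            rw [← Matrix.diagonal_smul]
            congr 1
            funext i
            simp
          rw [this, Matrix.mul_smul, Matrix.smul_mul]
        have hdg1 : ∀ v : Fin n → ℝ, dg v = cj 1 v := by
          intro v; unfold cj; simp
        rw [hdg1, hsm, hsm, hsm, ← hdg1, hC, smul_add]
        abel
      simp only [Nat.cast_zero, zero_div, zero_mul]
      rw [h0]
      unfold nsq
      simp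
    | succ i ih =>
      intro hi
      obtain ⟨p₀, hp₀, hv₀⟩ := ih (by omega)
      obtain ⟨p, hp, hpm⟩ := hmin ((i : ℝ) / N)
      have hi' : (i : ℝ) < N := by exact_mod_cast (by omega : i < N)
      have hst := hstep ((i : ℝ) / N) (1 / N) (by positivity) ((div_lt_one hNr).2 hi')
        (by positivity) p hp hpm
      refine ⟨p, hp, ?_⟩
      have e1 : ((i + 1 : ℕ) : ℝ) / N = (i : ℝ) / N + 1 / N := by
        push_cast; ring
      rw [e1]
      have h1 := (hpm p₀ hp₀).trans hv₀
      have e2 : (1 / (N : ℝ)) ^ 2 * M = M / (N : ℝ) ^ 2 := by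
        field_simp
      rw [e2] at hst
      push_cast
      have : ((i : ℝ) + 1) * (M / (N : ℝ) ^ 2) = i * (M / (N : ℝ) ^ 2) + M / (N : ℝ) ^ 2 := by ring
      rw [this]
      linarith
  -- conclusion
  obtain ⟨⟨U, W, x⟩, hp, hpm⟩ := hmin 1
  obtain ⟨hU, hW, hx, hxb⟩ := (hDmem _ _ _).1 hp
  have hzero : nsq (Rs 1 (U, W, x)) = 0 := by
    apply le_antisymm _ (nsq_nonneg _)
    by_contra hcon
    push Not at hcon
    obtain ⟨N, hN⟩ := exists_nat_gt (M / nsq (Rs 1 (U, W, x)))
    have hNpos : 0 < N := by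
      have h1 : 0 ≤ M / nsq (Rs 1 (U, W, x)) := div_nonneg hM0 hcon.le
      have h2 : (0:ℝ) < N := lt_of_le_of_lt h1 hN
      exact_mod_cast h2
    have hNr : (0 : ℝ) < N := by exact_mod_cast hNpos
    obtain ⟨p, hp', hv⟩ := hind N hNpos N le_rfl
    rw [div_self hNr.ne'] at hv
    have h1 := (hpm p hp').trans hv
    have h2 : (N : ℝ) * (M / (N : ℝ) ^ 2) = M / N := by field_simp
    rw [h2, le_div_iff₀ hNr] at h1
    rw [div_lt_iff₀ hcon] at hN
    linarith
  have hR0 := nsq_eq_zero hzero
  rw [hRsD 1 U W x hx] at hR0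
  have hF1 : ∀ t, FF f L 1 t = f t := by intro t; unfold FF gg; ring
  simp only [hF1] at hR0
  refine ⟨U, hU, W, hW, x, hx, hxb, ?_⟩
  have := sub_eq_zero.1 hR0
  rw [← this]
  abel

end Pool.Agent.Lib.F5
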