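import Pool.Agent.Lib.MP_f5ec7d_an.Mat2

set_option autoImplicit false

namespace Pool.Agent.Lib.F5

open Matrix Finset
open scoped ComplexOrder

variable {n : ℕ} {f : ℝ → ℝ} {L : ℝ}

theorem cj_sub (U : Matrix (Fin n) (Fin n) ℂ) (α β : Fin n → ℝ) :
    cj U α - cj U β = cj U (fun i => α i - β i) := by
  have : dg α - dg β = dg (fun i => α i - β i) := by
    unfold dg
    rw [Matrix.diagonal_sub]
    congr 1
    funext i
    push_cast
    rfl
  unfold cj
  rw [← this, Matrix.mul_sub, Matrix.sub_mul]

/-- diagonal entries of `q * q` -/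
theorem qq_diag {q U : Matrix (Fin n) (Fin n) ℂ} (hU : U ∈ Matrix.unitaryGroup (Fin n) ℂ)
    (hqH : qᴴ = q) (k : Fin n) :
    (q * q) k k = ((∑ i, Complex.normSq ((q * U) k i) : ℝ) : ℂ) := by
  rw [← diag_self, Matrix.conjTranspose_mul, hqH]
  have : q * U * (Uᴴ * q) = q * (U * Uᴴ) * q := by simp only [Matrix.mul_assoc]
  rw [this, uu hU, Matrix.mul_one]

theorem trace_qq_dg {q U : Matrix (Fin n) (Fin n) ℂ} (hU : U ∈ Matrix.unitaryGroup (Fin n) ℂ)
    (hqH : qᴴ = q) (γ : Fin n → ℝ) :
    (Matrix.trace (q * q * dg γ)).re = ∑ k, γ k * ∑ i, Complex.normSq ((q * U) k i) := by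
  unfold Matrix.trace
  rw [Complex.re_sum]
  apply Finset.sum_congr rfl
  intro k _
  rw [Matrix.diag_apply]
  unfold dg
  rw [Matrix.mul_diagonal, qq_diag hU hqH, ← Complex.ofReal_mul, Complex.ofReal_re, mul_comm]

theorem trace_qq_cj {q U : Matrix (Fin n) (Fin n) ℂ}
    (hqH : qᴴ = q) (β : Fin n → ℝ) :
    (Matrix.trace (q * q * cj U β)).re = ∑ i, β i * ∑ k, Complex.normSq ((q * U) k i) := by
  have h1 : Matrix.trace (q * q * cj U β) = Matrix.trace (((q * U)ᴴ * (q * U)) * dg β) := by
    unfold cj
    rw [Matrix.conjTranspose_mul, hqH]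
    have e1 : q * q * (U * dg β * Uᴴ) = (q * q * U * dg β) * Uᴴ := by
      simp only [Matrix.mul_assoc]
    rw [e1, Matrix.trace_mul_comm]
    simp only [Matrix.mul_assoc]
  rw [h1]
  unfold Matrix.trace
  rw [Complex.re_sum]
  apply Finset.sum_congr rfl
  intro k _
  rw [Matrix.diag_apply]
  unfold dg
  rw [Matrix.mul_diagonal, diag_self', ← Complex.ofReal_mul, Complex.ofReal_re, mul_comm]

/-- diagonal entries of `q * cj U t * q` -/
theorem qAq_diag {q U : Matrix (Fin n) (Fin n) ℂ}
    (hqH : qᴴ = q) (t : Fin n → ℝ) (k : Fin n) :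
    (q * cj U t * q) k k = ((∑ i, t i * Complex.normSq ((q * U) k i) : ℝ) : ℂ) := by
  rw [← diag_conj, Matrix.conjTranspose_mul, hqH]
  unfold cj
  simp only [Matrix.mul_assoc]

/-- diagonal entries of `q * dg τ * q` when `q` commutes with `dg τ` -/
theorem qCq_diag {q U : Matrix (Fin n) (Fin n) ℂ} (hU : U ∈ Matrix.unitaryGroup (Fin n) ℂ)
    (hqH : qᴴ = q) {τ : Fin n → ℝ} (hqC : q * dg τ = dg τ * q) (k : Fin n) :
    (q * dg τ * q) k k = ((τ k * ∑ i, Complex.normSq ((q * U) k i) : ℝ) : ℂ) := by
  rw [hqC, Matrix.mul_assoc]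
  unfold dg
  rw [Matrix.diagonal_mul, qq_diag hU hqH]
  push_cast
  ring

/-- weighted scalar inequality for a row -/
theorem row_weighted (h : Nice f L) {s : ℝ} (hs0 : 0 ≤ s) (hs1 : s < 1)
    {q U : Matrix (Fin n) (Fin n) ℂ} (hU : U ∈ Matrix.unitaryGroup (Fin n) ℂ)
    {a c : Fin n → ℝ} (ha : ∀ i, 0 ≤ a i) (hc : ∀ i, 0 ≤ c i) (hqH : qᴴ = q)
    (hqC : q * dg (fun k => FF f L s (c k)) = dg (fun k => FF f L s (c k)) * q)
    (hqA : q * cj U (fun i => FF f L s (a i)) = cj U (fun i => FF f L s (a i)) * q)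
    (hN : (q * (dg (fun k => FF f L s (c k)) - cj U (fun i => FF f L s (a i))) * q).PosSemidef)
    (i : Fin n) :
    gg f L (a i) * ∑ k, Complex.normSq ((q * U) k i) ≤
      FF f L s (a i) * ∑ k, (FF f L s (c k))⁻¹ * gg f L (c k) * Complex.normSq ((q * U) k i) := by
  have hτ : ∀ k, 0 ≤ FF f L s (c k) := fun k => h.FF_nonneg hs0 hs1.le (hc k)
  have ht : ∀ k, 0 ≤ FF f L s (a k) := fun k => h.FF_nonneg hs0 hs1.le (ha k)
  rcases eq_or_lt_of_le (ht i) with hti | hti
  · have hai : a i = 0 := by
      apply h.FF_inj hs0 hs1 (ha i) le_rfl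
      rw [h.FF_zero, ← hti]
    rw [hai, h.gg_zero, h.FF_zero, zero_mul, zero_mul]
  · -- vanishing when `τ k = 0`
    have hvan : ∀ k, FF f L s (c k) = 0 → Complex.normSq ((q * U) k i) = 0 := by
      intro k hk
      have h1 := (Complex.le_def.1 (hN.diag_nonneg (i := k))).1
      rw [Matrix.mul_sub, Matrix.sub_mul, Matrix.sub_apply, qAq_diag hqH,
        qCq_diag hU hqH hqC, hk] at h1
      simp only [zero_mul, Complex.ofReal_zero, zero_sub, Complex.zero_re, Complex.neg_re,
        Complex.ofReal_re] at h1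
      have h2 : FF f L s (a i) * Complex.normSq ((q * U) k i) ≤
          ∑ i, FF f L s (a i) * Complex.normSq ((q * U) k i) :=
        Finset.single_le_sum (f := fun i => FF f L s (a i) * Complex.normSq ((q * U) k i))
          (fun i _ => mul_nonneg (ht i) (Complex.normSq_nonneg _)) (Finset.mem_univ i)
      have h3 : FF f L s (a i) * Complex.normSq ((q * U) k i) ≤ 0 := by linarith
      have h4 := Complex.normSq_nonneg ((q * U) k i)
      by_contra hne
      have h5 : 0 < Complex.normSq ((q * U) k i) := lt_of_le_of_ne h4 (Ne.symm hne)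
      have := mul_pos hti h5
      linarith
    have hrow := row_ineq hU ht hqH hqC hqA hN i hti
    set S := ∑ k, Complex.normSq ((q * U) k i) with hS
    set p : Fin n → ℝ := fun k =>
      FF f L s (a i) * ((FF f L s (c k))⁻¹ * Complex.normSq ((q * U) k i)) with hp
    have hp0 : ∀ k, 0 ≤ p k := fun k =>
      mul_nonneg hti.le (mul_nonneg (inv_nonneg.2 (hτ k)) (Complex.normSq_nonneg _))
    have hpS : ∑ k, p k ≤ S := by
      rw [hp, ← Finset.mul_sum]
      exact hrow
    have hpF : S * FF f L s (a i) ≤ ∑ k, p k * FF f L s (c k) := by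
      apply le_of_eq
      rw [hS, Finset.sum_mul]
      apply Finset.sum_congr rfl
      intro k _
      by_cases hk : FF f L s (c k) = 0
      · rw [hvan k hk, hk]; simp
      · rw [hp]; field_simp
    have hkey := h.key hs0 hs1 hp0 hc (ha i) hpS hpF
    calc gg f L (a i) * S = S * gg f L (a i) := mul_comm _ _
      _ ≤ ∑ k, p k * gg f L (c k) := hkey
      _ = _ := by
        rw [Finset.mul_sum]
        apply Finset.sum_congr rfl
        intro k _
        rw [hp]; ring

/-- The main inequality at a stationary point. -/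
theorem main_ineq (h : Nice f L) {s : ℝ} (hs0 : 0 ≤ s) (hs1 : s < 1)
    {U W R : Matrix (Fin n) (Fin n) ℂ} (hU : U ∈ Matrix.unitaryGroup (Fin n) ℂ)
    (hW : W ∈ Matrix.unitaryGroup (Fin n) ℂ)
    {a c x : Fin n → ℝ} (ha : ∀ i, 0 ≤ a i) (hc : ∀ i, 0 ≤ c i) (hx : ∀ i, 0 ≤ x i)
    (hRH : Rᴴ = R)
    (hC : dg (fun k => FF f L s (c k)) = cj U (fun i => FF f L s (a i)) +
      cj W (fun i => FF f L s (x i)) + R)
    (hRA : R * cj U (fun i => FF f L s (a i)) = cj U (fun i => FF f L s (a i)) * R)
    (hRX : R * cj W (fun i => FF f L s (x i)) = cj W (fun i => FF f L s (x i)) * R)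
    (hneg : ∀ M : Matrix (Fin n) (Fin n) ℂ,
      M * cj W (fun i => FF f L s (x i)) = cj W (fun i => FF f L s (x i)) * M →
      ∀ j, 0 < x j → 0 ≤ (((M * W)ᴴ * R * (M * W)) j j).re) :
    0 ≤ (Matrix.trace (R * (dg (fun k => gg f L (c k)) - cj U (fun i => gg f L (a i)) -
      cj W (fun i => gg f L (x i))))).re := by
  set A := cj U (fun i => FF f L s (a i)) with hA
  set X := cj W (fun i => FF f L s (x i)) with hX
  set C := dg (fun k => FF f L s (c k)) with hCd
  have hτ : ∀ k, 0 ≤ FF f L s (c k) := fun k => h.FF_nonneg hs0 hs1.le (hc k)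
  have ht : ∀ k, 0 ≤ FF f L s (a k) := fun k => h.FF_nonneg hs0 hs1.le (ha k)
  have hy : ∀ k, 0 ≤ FF f L s (x k) := fun k => h.FF_nonneg hs0 hs1.le (hx k)
  obtain ⟨P, hP, ρ, hρ⟩ := spec hRH
  set rp : Fin n → ℝ := fun i => Real.sqrt (max (ρ i) 0) with hrp
  set rm : Fin n → ℝ := fun i => Real.sqrt (max (-ρ i) 0) with hrm
  set q := cj P rp with hq
  set q' := cj P rm with hq'
  have hqH : qᴴ = q := cj_conjTranspose _ _
  have hq'H : q'ᴴ = q' := cj_conjTranspose _ _
  have hrp2 : ∀ i, rp i * rp i = max (ρ i) 0 := fun i => Real.mul_self_sqrt (le_max_right _ _)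
  have hrm2 : ∀ i, rm i * rm i = max (-ρ i) 0 := fun i => Real.mul_self_sqrt (le_max_right _ _)
  have hqq : q * q = cj P (fun i => max (ρ i) 0) := by
    rw [hq, cj_mul_cj hP]
    congr 1
    funext i
    exact hrp2 i
  have hq'q' : q' * q' = cj P (fun i => max (-ρ i) 0) := by
    rw [hq', cj_mul_cj hP]
    congr 1
    funext i
    exact hrm2 i
  have hRq : R = q * q - q' * q' := by
    rw [hqq, hq'q', cj_sub, hρ]
    congr 1
    funext i
    rcases le_total (ρ i) 0 with h0 | h0
    · rw [max_eq_right h0, max_eq_left (by linarith)]; ring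
    · rw [max_eq_left h0, max_eq_right (by linarith)]; ring
  -- psd facts
  have hqRq : (q * R * q).PosSemidef := by
    have : q * R * q = cj P (fun i => rp i * ρ i * rp i) := by
      rw [hq, hρ, cj_mul_cj hP, cj_mul_cj hP]
    rw [this]
    apply cj_psd
    intro i
    have : rp i * ρ i * rp i = ρ i * (rp i * rp i) := by ring
    rw [this, hrp2]
    rcases le_total (ρ i) 0 with h0 | h0
    · rw [max_eq_right h0]; simp
    · rw [max_eq_left h0]; positivity
  have hq'Rq' : q' * R * q' = -(q' * q' * (q' * q')) := by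
    have e1 : q' * R * q' = cj P (fun i => rm i * ρ i * rm i) := by
      rw [hq', hρ, cj_mul_cj hP, cj_mul_cj hP]
    have e2 : q' * q' * (q' * q') = cj P (fun i => max (-ρ i) 0 * max (-ρ i) 0) := by
      rw [hq'q', cj_mul_cj hP]
    have e3 : cj P (fun i => max (-ρ i) 0 * max (-ρ i) 0) + cj P (fun i => rm i * ρ i * rm i)
        = 0 := by
      have : cj P (fun i => rm i * ρ i * rm i) =
          cj P (fun i => 0 - max (-ρ i) 0 * max (-ρ i) 0) := by
        congr 1
        funext i
        have : rm i * ρ i * rm i = ρ i * (rm i * rm i) := by ring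
        rw [this, hrm2]
        rcases le_total (ρ i) 0 with h0 | h0
        · rw [max_eq_left (by linarith)]; ring
        · rw [max_eq_right (by linarith)]; ring
      rw [this, ← cj_sub]
      have hz : cj P (fun _ => (0:ℝ)) = 0 := by unfold cj dg; simp
      rw [hz]; simp
    rw [e1, e2]
    exact (neg_eq_of_add_eq_zero_right e3).symm
  -- commutation
  have hcomm : ∀ M : Matrix (Fin n) (Fin n) ℂ, R * M = M * R → q * M = M * q ∧ q' * M = M * q' := by
    intro M hM
    have h1 : M * cj P ρ = cj P ρ * M := by rw [← hρ]; exact hM.symm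
    constructor
    · exact (comm_fun hP h1 (fun i j hij => by simp [hrp, hij])).symm
    · exact (comm_fun hP h1 (fun i j hij => by simp [hrm, hij])).symm
  obtain ⟨hqA, hq'A⟩ := hcomm A hRA
  obtain ⟨hqX, hq'X⟩ := hcomm X hRX
  obtain ⟨hqR, hq'R⟩ := hcomm R rfl
  have hqC : q * C = C * q := by
    rw [hC, Matrix.mul_add, Matrix.mul_add, Matrix.add_mul, Matrix.add_mul, hqA, hqX, hqR]
  have hq'C : q' * C = C * q' := by
    rw [hC, Matrix.mul_add, Matrix.mul_add, Matrix.add_mul, Matrix.add_mul, hq'A, hq'X, hq'R]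
  have hXpsd : X.PosSemidef := cj_psd hy
  have hApsd : A.PosSemidef := cj_psd ht
  have hqXq : (q * X * q).PosSemidef := by
    have := hXpsd.conjTranspose_mul_mul_same q
    rwa [hqH] at this
  have hqAq : (q * A * q).PosSemidef := by
    have := hApsd.conjTranspose_mul_mul_same q
    rwa [hqH] at this
  have hNA : (q * (C - A) * q).PosSemidef := by
    have : q * (C - A) * q = q * X * q + q * R * q := by
      rw [hC]
      have : A + X + R - A = X + R := by abel
      rw [this, Matrix.mul_add, Matrix.add_mul]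
    rw [this]
    exact hqXq.add hqRq
  have hNX : (q * (C - X) * q).PosSemidef := by
    have : q * (C - X) * q = q * A * q + q * R * q := by
      rw [hC]
      have : A + X + R - X = A + R := by abel
      rw [this, Matrix.mul_add, Matrix.add_mul]
    rw [this]
    exact hqAq.add hqRq
  -- part (I)
  have hI : ∑ i, gg f L (a i) * ∑ k, Complex.normSq ((q * U) k i) +
      ∑ j, gg f L (x j) * ∑ k, Complex.normSq ((q * W) k j) ≤
      ∑ k, gg f L (c k) * ∑ i, Complex.normSq ((q * U) k i) := by
    have hrA : ∀ i, _ := fun i => row_weighted h hs0 hs1 hU ha hc hqH hqC hqA hNA i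
    have hrX : ∀ j, _ := fun j => row_weighted h hs0 hs1 hW hx hc hqH hqC hqX hNX j
    have hcol : ∀ k, ∑ i, FF f L s (a i) * Complex.normSq ((q * U) k i) +
        ∑ j, FF f L s (x j) * Complex.normSq ((q * W) k j) ≤
        FF f L s (c k) * ∑ i, Complex.normSq ((q * U) k i) := by
      intro k
      have h1 := (Complex.le_def.1 (hqRq.diag_nonneg (i := k))).1
      have h2 : q * R * q = q * C * q - q * A * q - q * X * q := by
        rw [hC]; simp only [Matrix.mul_add, Matrix.add_mul]; abel
      rw [h2, Matrix.sub_apply, Matrix.sub_apply, qCq_diag hU hqH hqC, hA, hX, qAq_diag hqH,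
        qAq_diag hqH] at h1
      simp only [Complex.zero_re, Complex.sub_re, Complex.ofReal_re] at h1
      linarith
    calc ∑ i, gg f L (a i) * ∑ k, Complex.normSq ((q * U) k i) +
        ∑ j, gg f L (x j) * ∑ k, Complex.normSq ((q * W) k j)
        ≤ ∑ i, FF f L s (a i) * ∑ k, (FF f L s (c k))⁻¹ * gg f L (c k) *
            Complex.normSq ((q * U) k i) +
          ∑ j, FF f L s (x j) * ∑ k, (FF f L s (c k))⁻¹ * gg f L (c k) *
            Complex.normSq ((q * W) k j) :=
          add_le_add (Finset.sum_le_sum (fun i _ => hrA i)) (Finset.sum_le_sum (fun j _ => hrX j))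
      _ = ∑ k, ((FF f L s (c k))⁻¹ * gg f L (c k)) *
            (∑ i, FF f L s (a i) * Complex.normSq ((q * U) k i) +
             ∑ j, FF f L s (x j) * Complex.normSq ((q * W) k j)) := by
          simp only [Finset.mul_sum, mul_add, Finset.sum_add_distrib]
          congr 1
          · rw [Finset.sum_comm]
            apply Finset.sum_congr rfl; intro k _
            apply Finset.sum_congr rfl; intro i _
            ring
          · rw [Finset.sum_comm]
            apply Finset.sum_congr rfl; intro k _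
            apply Finset.sum_congr rfl; intro i _
            ring
      _ ≤ ∑ k, ((FF f L s (c k))⁻¹ * gg f L (c k)) *
            (FF f L s (c k) * ∑ i, Complex.normSq ((q * U) k i)) :=
          Finset.sum_le_sum (fun k _ => mul_le_mul_of_nonneg_left (hcol k)
            (mul_nonneg (inv_nonneg.2 (hτ k)) (h.gg_nonneg (hc k))))
      _ ≤ ∑ k, gg f L (c k) * ∑ i, Complex.normSq ((q * U) k i) := by
          apply Finset.sum_le_sum
          intro k _
          have hS : 0 ≤ ∑ i, Complex.normSq ((q * U) k i) :=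
            Finset.sum_nonneg (fun i _ => Complex.normSq_nonneg _)
          by_cases hk : FF f L s (c k) = 0
          · rw [hk, _root_.inv_zero, zero_mul, zero_mul]
            exact mul_nonneg (h.gg_nonneg (hc k)) hS
          · apply le_of_eq
            field_simp
  -- `q' X = 0`
  have hq'W : ∀ j, 0 < x j → ∀ k, (q' * W) k j = 0 := by
    intro j hj
    have h1 := hneg q' hq'X j hj
    have h2 : (q' * W)ᴴ * R * (q' * W) = -((q' * q' * W)ᴴ * (q' * q' * W)) := by
      have e1 : (q' * W)ᴴ * R * (q' * W) = Wᴴ * (q' * R * q') * W := by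
        rw [Matrix.conjTranspose_mul, hq'H]; simp only [Matrix.mul_assoc]
      have e2 : (q' * q' * W)ᴴ * (q' * q' * W) = Wᴴ * (q' * q' * (q' * q')) * W := by
        rw [Matrix.conjTranspose_mul, Matrix.conjTranspose_mul, hq'H]
        simp only [Matrix.mul_assoc]
      rw [e1, e2, hq'Rq', Matrix.mul_neg, Matrix.neg_mul]
    rw [h2, Matrix.neg_apply, diag_self'] at h1
    simp only [Complex.neg_re, Complex.ofReal_re] at h1
    have h3 : ∑ k, Complex.normSq ((q' * q' * W) k j) = 0 :=
      le_antisymm (by linarith) (Finset.sum_nonneg (fun _ _ => Complex.normSq_nonneg _))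
    have h4 : ∀ k, (q' * q' * W) k j = 0 := by
      intro k
      have := (Finset.sum_eq_zero_iff_of_nonneg
        (fun k (_ : k ∈ Finset.univ) => Complex.normSq_nonneg ((q' * q' * W) k j))).1 h3 k
        (Finset.mem_univ k)
      exact Complex.normSq_eq_zero.1 this
    have h5 : ((q' * W)ᴴ * (q' * W)) j j = 0 := by
      have : (q' * W)ᴴ * (q' * W) = Wᴴ * (q' * q' * W) := by
        rw [Matrix.conjTranspose_mul, hq'H]; simp only [Matrix.mul_assoc]
      rw [this, Matrix.mul_apply]
      apply Finset.sum_eq_zero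
      intro k _
      rw [h4 k, mul_zero]
    rw [diag_self'] at h5
    have h6 : ∑ k, Complex.normSq ((q' * W) k j) = 0 := by exact_mod_cast h5
    intro k
    have := (Finset.sum_eq_zero_iff_of_nonneg
      (fun k (_ : k ∈ Finset.univ) => Complex.normSq_nonneg ((q' * W) k j))).1 h6 k
      (Finset.mem_univ k)
    exact Complex.normSq_eq_zero.1 this
  have hq'X0 : q' * X = 0 := by
    have h1 : q' * X = (q' * W * dg (fun i => FF f L s (x i))) * Wᴴ := by
      rw [hX]; unfold cj; simp only [Matrix.mul_assoc]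
    have h2 : q' * W * dg (fun i => FF f L s (x i)) = 0 := by
      ext k j
      unfold dg
      rw [Matrix.mul_diagonal, Matrix.zero_apply]
      show (q' * W) k j * ((FF f L s (x j) : ℝ) : ℂ) = 0
      rcases eq_or_lt_of_le (hx j) with h0 | h0
      · rw [← h0, h.FF_zero]; simp
      · rw [hq'W j h0 k, zero_mul]
    rw [h1, h2, Matrix.zero_mul]
  -- part (II)
  have hII : ∑ k, gg f L (c k) * ∑ i, Complex.normSq ((q' * U) k i) ≤
      ∑ i, gg f L (a i) * ∑ k, Complex.normSq ((q' * U) k i) := by
    have hk : ∀ k, (∑ i, Complex.normSq ((q' * U) k i)) * gg f L (c k) ≤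
        ∑ i, Complex.normSq ((q' * U) k i) * gg f L (a i) := by
      intro k
      apply h.key hs0 hs1 (fun i => Complex.normSq_nonneg _) ha (hc k) le_rfl
      have h1 : q' * A * q' = q' * C * q' - q' * R * q' := by
        have : A = C - X - R := by rw [hC]; abel
        rw [this]
        simp only [Matrix.mul_sub, Matrix.sub_mul]
        rw [hq'X0, Matrix.zero_mul, sub_zero]
      have h2 : ((q' * A * q') k k).re = FF f L s (c k) * ∑ i, Complex.normSq ((q' * U) k i) +
          ((q' * q' * (q' * q')) k k).re := by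
        rw [h1, hq'Rq', Matrix.sub_apply, qCq_diag hU hq'H hq'C, Matrix.neg_apply]
        simp only [Complex.sub_re, Complex.neg_re, Complex.ofReal_re]
        ring
      rw [hA, qAq_diag hq'H, Complex.ofReal_re] at h2
      have h3 : 0 ≤ ((q' * q' * (q' * q')) k k).re := by
        have : q' * q' * (q' * q') = (q' * q') * (q' * q')ᴴ := by
          rw [Matrix.conjTranspose_mul, hq'H]
        rw [this, diag_self, Complex.ofReal_re]
        exact Finset.sum_nonneg (fun _ _ => Complex.normSq_nonneg _)
      have h4 : ∑ i, Complex.normSq ((q' * U) k i) * FF f L s (a i) =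
          ∑ i, FF f L s (a i) * Complex.normSq ((q' * U) k i) :=
        Finset.sum_congr rfl (fun i _ => mul_comm _ _)
      rw [h4, h2, mul_comm]
      linarith
    calc ∑ k, gg f L (c k) * ∑ i, Complex.normSq ((q' * U) k i)
        = ∑ k, (∑ i, Complex.normSq ((q' * U) k i)) * gg f L (c k) :=
          Finset.sum_congr rfl (fun k _ => mul_comm _ _)
      _ ≤ ∑ k, ∑ i, Complex.normSq ((q' * U) k i) * gg f L (a i) :=
          Finset.sum_le_sum (fun k _ => hk k)
      _ = _ := by
          rw [Finset.sum_comm]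
          apply Finset.sum_congr rfl; intro i _
          rw [Finset.mul_sum]
          apply Finset.sum_congr rfl; intro k _
          ring
  -- conclusion
  have hexp : (Matrix.trace (R * (dg (fun k => gg f L (c k)) - cj U (fun i => gg f L (a i)) -
      cj W (fun i => gg f L (x i))))).re =
      ((Matrix.trace (q * q * dg (fun k => gg f L (c k)))).re -
        (Matrix.trace (q * q * cj U (fun i => gg f L (a i)))).re -
        (Matrix.trace (q * q * cj W (fun i => gg f L (x i)))).re) -
      ((Matrix.trace (q' * q' * dg (fun k => gg f L (c k)))).re -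
        (Matrix.trace (q' * q' * cj U (fun i => gg f L (a i)))).re -
        (Matrix.trace (q' * q' * cj W (fun i => gg f L (x i)))).re) := by
    rw [hRq]
    simp only [Matrix.mul_sub, Matrix.sub_mul, Matrix.trace_sub, Complex.sub_re]
    ring
  rw [hexp, trace_qq_dg hU hqH, trace_qq_cj hqH, trace_qq_cj hqH, trace_qq_dg hU hq'H,
    trace_qq_cj hq'H, trace_qq_cj hq'H]
  have hlast : 0 ≤ ∑ j, gg f L (x j) * ∑ k, Complex.normSq ((q' * W) k j) :=
    Finset.sum_nonneg (fun j _ => mul_nonneg (h.gg_nonneg (hx j))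
      (Finset.sum_nonneg (fun _ _ => Complex.normSq_nonneg _)))
  linarith

end Pool.Agent.Lib.F5
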