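import Pool.Agent.Lib.MP_f5ec7d_an.Real

set_option autoImplicit false

namespace Pool.Agent.Lib.F5

open Matrix Finset
open scoped ComplexOrder

variable {n : ℕ}

/-- real diagonal matrix with complex entries -/
noncomputable def dg (v : Fin n → ℝ) : Matrix (Fin n) (Fin n) ℂ :=
  Matrix.diagonal (fun i => ((v i : ℝ) : ℂ))

/-- conjugated diagonal matrix -/
noncomputable def cj (U : Matrix (Fin n) (Fin n) ℂ) (v : Fin n → ℝ) :
    Matrix (Fin n) (Fin n) ℂ := U * dg v * Uᴴ

theorem dg_conjTranspose (v : Fin n → ℝ) : (dg v)ᴴ = dg v := by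
  unfold dg
  rw [Matrix.diagonal_conjTranspose]
  congr 1
  funext i
  simp

theorem cj_conjTranspose (U : Matrix (Fin n) (Fin n) ℂ) (v : Fin n → ℝ) :
    (cj U v)ᴴ = cj U v := by
  unfold cj
  rw [Matrix.conjTranspose_mul, Matrix.conjTranspose_mul, Matrix.conjTranspose_conjTranspose,
    dg_conjTranspose, Matrix.mul_assoc]

theorem uu {U : Matrix (Fin n) (Fin n) ℂ} (hU : U ∈ Matrix.unitaryGroup (Fin n) ℂ) :
    U * Uᴴ = 1 := Matrix.mem_unitaryGroup_iff.1 hU

theorem uu' {U : Matrix (Fin n) (Fin n) ℂ} (hU : U ∈ Matrix.unitaryGroup (Fin n) ℂ) :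
    Uᴴ * U = 1 := Matrix.mem_unitaryGroup_iff'.1 hU

theorem cj_mul {V U : Matrix (Fin n) (Fin n) ℂ} (v : Fin n → ℝ) :
    cj (V * U) v = V * cj U v * Vᴴ := by
  unfold cj
  rw [Matrix.conjTranspose_mul]
  simp only [Matrix.mul_assoc]

theorem cj_col {U : Matrix (Fin n) (Fin n) ℂ} (hU : U ∈ Matrix.unitaryGroup (Fin n) ℂ)
    (v : Fin n → ℝ) : cj U v * U = U * dg v := by
  unfold cj
  rw [Matrix.mul_assoc, uu' hU, Matrix.mul_one]

theorem cj_psd {U : Matrix (Fin n) (Fin n) ℂ} {v : Fin n → ℝ} (hv : ∀ i, 0 ≤ v i) :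
    (cj U v).PosSemidef := by
  unfold cj
  apply Matrix.PosSemidef.mul_mul_conjTranspose_same
  unfold dg
  apply Matrix.PosSemidef.diagonal
  intro i
  simp only [Pi.zero_apply]
  exact_mod_cast hv i

/-- commuting with an injective function implies commuting with any function -/
theorem comm_fun {U M : Matrix (Fin n) (Fin n) ℂ} (hU : U ∈ Matrix.unitaryGroup (Fin n) ℂ)
    {α β : Fin n → ℝ} (h : M * cj U α = cj U α * M) (hinj : ∀ i j, α i = α j → β i = β j) :
    M * cj U β = cj U β * M := by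
  have h1 : (Uᴴ * M * U) * dg α = dg α * (Uᴴ * M * U) := by
    have e1 : (Uᴴ * M * U) * dg α = Uᴴ * (M * cj U α) * U := by
      rw [Matrix.mul_assoc Uᴴ (M * cj U α) U, Matrix.mul_assoc M (cj U α) U, cj_col hU]
      simp only [Matrix.mul_assoc]
    have e2 : dg α * (Uᴴ * M * U) = Uᴴ * (cj U α * M) * U := by
      have : Uᴴ * cj U α = dg α * Uᴴ := by
        unfold cj
        rw [← Matrix.mul_assoc, ← Matrix.mul_assoc, uu' hU, Matrix.one_mul]
      rw [← Matrix.mul_assoc Uᴴ (cj U α) M, this]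
      simp only [Matrix.mul_assoc]
    rw [e1, e2, h]
  have h2 : (Uᴴ * M * U) * dg β = dg β * (Uᴴ * M * U) := by
    ext i j
    have hij := congrFun (congrFun h1 i) j
    unfold dg at hij ⊢
    rw [Matrix.mul_diagonal, Matrix.diagonal_mul] at hij ⊢
    by_cases hc : α i = α j
    · rw [hinj i j hc, mul_comm]
    · have : (Uᴴ * M * U) i j = 0 := by
        have h3 : (Uᴴ * M * U) i j * ((α j : ℂ) - (α i : ℂ)) = 0 := by
          rw [mul_sub, hij]; ring
        rcases mul_eq_zero.1 h3 with h4 | h4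
        · exact h4
        · exfalso
          apply hc
          have : (α j : ℂ) = (α i : ℂ) := sub_eq_zero.1 h4
          exact_mod_cast this.symm
      rw [this]; ring
  have e3 : M * cj U β = U * ((Uᴴ * M * U) * dg β) * Uᴴ := by
    unfold cj
    calc M * (U * dg β * Uᴴ) = (U * Uᴴ) * M * (U * dg β * Uᴴ) := by rw [uu hU, Matrix.one_mul]
      _ = U * ((Uᴴ * M * U) * dg β) * Uᴴ := by simp only [Matrix.mul_assoc]
  have e4 : cj U β * M = U * (dg β * (Uᴴ * M * U)) * Uᴴ := by
    unfold cj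
    calc U * dg β * Uᴴ * M = (U * dg β * Uᴴ) * M * (U * Uᴴ) := by rw [uu hU, Matrix.mul_one]
      _ = U * (dg β * (Uᴴ * M * U)) * Uᴴ := by simp only [Matrix.mul_assoc]
  rw [e3, e4, h2]

/-- squared Frobenius norm -/
noncomputable def nsq (M : Matrix (Fin n) (Fin n) ℂ) : ℝ := (Matrix.trace (M * Mᴴ)).re

theorem nsq_nonneg (M : Matrix (Fin n) (Fin n) ℂ) : 0 ≤ nsq M := by
  have := (Matrix.posSemidef_self_mul_conjTranspose M).trace_nonneg
  exact (Complex.le_def.1 this).1

theorem nsq_eq_zero {M : Matrix (Fin n) (Fin n) ℂ} (h : nsq M = 0) : M = 0 := by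
  have h1 := (Matrix.posSemidef_self_mul_conjTranspose M).trace_nonneg
  have h2 : Matrix.trace (M * Mᴴ) = 0 := by
    apply Complex.ext
    · exact h
    · exact (Complex.le_def.1 h1).2.symm
  exact Matrix.trace_mul_conjTranspose_self_eq_zero_iff.1 h2

theorem nsq_add_of_herm {R S : Matrix (Fin n) (Fin n) ℂ} (hR : Rᴴ = R) (hS : Sᴴ = S) :
    nsq (R + S) = nsq R + 2 * (Matrix.trace (R * S)).re + nsq S := by
  unfold nsq
  rw [Matrix.conjTranspose_add, hR, hS]
  have : (R + S) * (R + S) = R * R + R * S + S * R + S * S := by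
    rw [Matrix.add_mul, Matrix.mul_add, Matrix.mul_add]; abel
  rw [this, Matrix.trace_add, Matrix.trace_add, Matrix.trace_add, Matrix.trace_mul_comm S R]
  simp only [Complex.add_re]
  ring

theorem real_aux {m r : ℝ} (h : ∀ τ : ℝ, -τ * m ≤ τ ^ 2 * r) : m = 0 := by
  by_contra hm
  have hr : 0 < |r| + 1 := by positivity
  have h1 := h (-(m / (|r| + 1)))
  have h2 : -(-(m / (|r| + 1))) * m = m ^ 2 / (|r| + 1) := by
    field_simp
  have h3 : (-(m / (|r| + 1))) ^ 2 * r ≤ m ^ 2 / (|r| + 1) * (|r| / (|r| + 1)) := by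
    have : (-(m / (|r| + 1))) ^ 2 * r = m ^ 2 / (|r| + 1) * (r / (|r| + 1)) := by
      field_simp
    rw [this]
    apply mul_le_mul_of_nonneg_left
    · exact div_le_div_of_nonneg_right (le_abs_self r) hr.le
    · positivity
  have h4 : 0 < m ^ 2 / (|r| + 1) := by positivity
  have h5 : |r| / (|r| + 1) < 1 := by
    rw [div_lt_one hr]; linarith
  rw [h2] at h1
  have h6 : m ^ 2 / (|r| + 1) * (|r| / (|r| + 1)) < m ^ 2 / (|r| + 1) * 1 :=
    mul_lt_mul_of_pos_left h5 h4
  linarith

/-- the unitary `1 + z P` -/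
theorem unitary_one_add {P : Matrix (Fin n) (Fin n) ℂ} (hP : P * P = P) (hP' : Pᴴ = P) {z : ℂ}
    (hz : z + star z + z * star z = 0) :
    (1 + z • P) ∈ Matrix.unitaryGroup (Fin n) ℂ := by
  rw [Matrix.mem_unitaryGroup_iff, Matrix.star_eq_conjTranspose, Matrix.conjTranspose_add,
    Matrix.conjTranspose_one, Matrix.conjTranspose_smul, hP', Matrix.add_mul, Matrix.mul_add,
    Matrix.mul_add, Matrix.one_mul, Matrix.one_mul, Matrix.mul_one, Matrix.smul_mul,
    Matrix.mul_smul, hP, smul_smul]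
  have : (1 : Matrix (Fin n) (Fin n) ℂ) + star z • P + (z • P + (z * star z) • P)
      = 1 + (z + star z + z * star z) • P := by
    rw [add_smul, add_smul]; abel
  rw [this, hz, zero_smul, add_zero]

theorem trace_conj (M : Matrix (Fin n) (Fin n) ℂ) : Matrix.trace Mᴴ = star (Matrix.trace M) :=
  Matrix.trace_conjTranspose M

theorem im_zero_of_max {Z Y P : Matrix (Fin n) (Fin n) ℂ} (hZ : Zᴴ = Z) (hY : Yᴴ = Y)
    (hP : P * P = P) (hP' : Pᴴ = P)
    (hmax : ∀ V ∈ Matrix.unitaryGroup (Fin n) ℂ,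
      (Matrix.trace (Z * (V * Y * Vᴴ))).re ≤ (Matrix.trace (Z * Y)).re) :
    (Matrix.trace (Z * P * Y)).im = 0 := by
  set p := Matrix.trace (Z * P * Y) with hp
  set q := Matrix.trace (Z * P * Y * P) with hq
  apply real_aux (r := p.re - q.re)
  intro τ
  set z : ℂ := ⟨-2 * τ ^ 2 / (1 + τ ^ 2), 2 * τ / (1 + τ ^ 2)⟩ with hz
  have hpos : (0:ℝ) < 1 + τ ^ 2 := by positivity
  have hzz : z + star z + z * star z = 0 := by
    apply Complex.ext
    · simp only [hz, Complex.star_def, Complex.add_re, Complex.conj_re, Complex.mul_re,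
        Complex.conj_im, Complex.zero_re]
      field_simp
      ring
    · simp only [hz, Complex.star_def, Complex.add_im, Complex.conj_im, Complex.mul_im,
        Complex.conj_re, Complex.zero_im]
      ring
  have hV := unitary_one_add hP hP' hzz
  have h1 := hmax _ hV
  have hconj : Matrix.trace (Z * Y * P) = star p := by
    rw [hp, ← trace_conj, Matrix.conjTranspose_mul, Matrix.conjTranspose_mul, hZ, hY, hP',
      Matrix.mul_assoc Z Y P, Matrix.trace_mul_comm Z (Y * P), Matrix.mul_assoc]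
  have hexp : Matrix.trace (Z * ((1 + z • P) * Y * (1 + z • P)ᴴ))
      = Matrix.trace (Z * Y) + z * p + star z * star p + z * star z * q := by
    rw [Matrix.conjTranspose_add, Matrix.conjTranspose_one, Matrix.conjTranspose_smul, hP']
    have : Z * ((1 + z • P) * Y * (1 + star z • P))
        = Z * Y + z • (Z * P * Y) + star z • (Z * Y * P) + (z * star z) • (Z * P * Y * P) := by
      simp only [Matrix.add_mul, Matrix.mul_add, Matrix.one_mul, Matrix.mul_one, Matrix.smul_mul,
        Matrix.mul_smul, Matrix.mul_assoc, smul_add, smul_smul]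
      rw [mul_comm (star z) z]
      abel
    rw [this, Matrix.trace_add, Matrix.trace_add, Matrix.trace_add, Matrix.trace_smul,
      Matrix.trace_smul, Matrix.trace_smul, hconj]
    simp only [smul_eq_mul]
    rw [← hp, ← hq]
  rw [hexp] at h1
  simp only [Complex.add_re, Complex.mul_re, Complex.star_def, Complex.conj_re, Complex.conj_im,
    Complex.mul_im] at h1
  have hzr : z.re = -2 * τ ^ 2 / (1 + τ ^ 2) := rfl
  have hzi : z.im = 2 * τ / (1 + τ ^ 2) := rfl
  have h2 : z.re * p.re - z.im * p.im + (z.re * p.re - -z.im * -p.im)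
      + ((z.re * z.re - z.im * -z.im) * q.re - (z.re * -z.im + z.im * z.re) * q.im) ≤ 0 := by
    linarith
  have h3 : z.re * p.re - z.im * p.im + (z.re * p.re - -z.im * -p.im)
      + ((z.re * z.re - z.im * -z.im) * q.re - (z.re * -z.im + z.im * z.re) * q.im)
      = 4 / (1 + τ ^ 2) * (-τ * p.im - τ ^ 2 * (p.re - q.re)) := by
    rw [hzr, hzi]
    field_simp
    ring
  rw [h3] at h2
  have h4 : (0:ℝ) < 4 / (1 + τ ^ 2) := by positivity
  by_contra hcon
  push Not at hcon
  have : 0 < 4 / (1 + τ ^ 2) * (-τ * p.im - τ ^ 2 * (p.re - q.re)) :=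
    mul_pos h4 (by linarith)
  linarith

end Pool.Agent.Lib.F5
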