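import Pool.Agent.Lib.MP_f5ec7d_an.Mat

set_option autoImplicit false

namespace Pool.Agent.Lib.F5

open Matrix Finset
open scoped ComplexOrder

variable {n : ℕ}

theorem dg_mul (α β : Fin n → ℝ) : dg α * dg β = dg (fun i => α i * β i) := by
  unfold dg
  rw [Matrix.diagonal_mul_diagonal]
  congr 1
  funext i
  push_cast
  rfl

theorem cj_mul_cj {U : Matrix (Fin n) (Fin n) ℂ} (hU : U ∈ Matrix.unitaryGroup (Fin n) ℂ)
    (α β : Fin n → ℝ) : cj U α * cj U β = cj U (fun i => α i * β i) := by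
  unfold cj
  rw [← dg_mul]
  calc U * dg α * Uᴴ * (U * dg β * Uᴴ) = U * dg α * (Uᴴ * U) * dg β * Uᴴ := by
        simp only [Matrix.mul_assoc]
    _ = U * (dg α * dg β) * Uᴴ := by
        rw [uu' hU, Matrix.mul_one]; simp only [Matrix.mul_assoc]

theorem trace_dg (α : Fin n → ℝ) : Matrix.trace (dg α) = ((∑ i, α i : ℝ) : ℂ) := by
  unfold dg
  rw [Matrix.trace_diagonal]
  push_cast
  rfl

theorem trace_cj {U : Matrix (Fin n) (Fin n) ℂ} (hU : U ∈ Matrix.unitaryGroup (Fin n) ℂ)
    (α : Fin n → ℝ) : Matrix.trace (cj U α) = ((∑ i, α i : ℝ) : ℂ) := by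
  unfold cj
  rw [Matrix.trace_mul_comm, ← Matrix.mul_assoc, uu' hU, Matrix.one_mul, trace_dg]

theorem spec {R : Matrix (Fin n) (Fin n) ℂ} (hR : Rᴴ = R) :
    ∃ P ∈ Matrix.unitaryGroup (Fin n) ℂ, ∃ ρ : Fin n → ℝ, R = cj P ρ := by
  have hH : R.IsHermitian := hR
  refine ⟨hH.eigenvectorUnitary, hH.eigenvectorUnitary.2, hH.eigenvalues, ?_⟩
  have := hH.spectral_theorem
  rw [Unitary.conjStarAlgAut_apply] at this
  exact this

theorem comm_of_max {Z Y : Matrix (Fin n) (Fin n) ℂ} (hZ : Zᴴ = Z) (hY : Yᴴ = Y)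
    (hmax : ∀ V ∈ Matrix.unitaryGroup (Fin n) ℂ,
      (Matrix.trace (Z * (V * Y * Vᴴ))).re ≤ (Matrix.trace (Z * Y)).re) :
    Z * Y = Y * Z := by
  set K : Matrix (Fin n) (Fin n) ℂ := Complex.I • (Z * Y - Y * Z) with hK
  have hKH : Kᴴ = K := by
    rw [hK, Matrix.conjTranspose_smul, Matrix.conjTranspose_sub, Matrix.conjTranspose_mul,
      Matrix.conjTranspose_mul, hZ, hY]
    have : star Complex.I = -Complex.I := by simp
    rw [this, neg_smul, ← smul_neg, neg_sub]
  obtain ⟨Q, hQ, κ, hκ⟩ := spec hKH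
  have hκ0 : ∀ j, κ j = 0 := by
    intro j
    set P := cj Q (Pi.single j 1 : Fin n → ℝ) with hP
    have hPP : P * P = P := by
      rw [hP, cj_mul_cj hQ]
      congr 1
      funext i
      by_cases hij : i = j
      · subst hij; simp
      · simp [Pi.single_eq_of_ne hij]
    have hPH : Pᴴ = P := cj_conjTranspose _ _
    have him := im_zero_of_max hZ hY hPP hPH hmax
    have h1 : Matrix.trace (P * K) = (κ j : ℂ) := by
      rw [hκ, hP, cj_mul_cj hQ, trace_cj hQ]
      congr 1
      rw [Finset.sum_eq_single j]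
      · simp
      · intro b _ hb
        simp [Pi.single_eq_of_ne hb]
      · intro h; exact absurd (Finset.mem_univ j) h
    have h2 : Matrix.trace (P * (Y * Z)) = Matrix.trace (Z * P * Y) := by
      rw [Matrix.mul_assoc Z P Y, Matrix.trace_mul_comm Z (P * Y), Matrix.mul_assoc]
    have h3 : Matrix.trace (P * (Z * Y)) = star (Matrix.trace (Z * P * Y)) := by
      rw [← trace_conj, Matrix.conjTranspose_mul, Matrix.conjTranspose_mul, hZ, hY, hPH,
        Matrix.trace_mul_comm Y (P * Z), Matrix.mul_assoc]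
    have h4 : Matrix.trace (P * K) = Complex.I * (star (Matrix.trace (Z * P * Y)) -
        Matrix.trace (Z * P * Y)) := by
      rw [hK, Matrix.mul_smul, Matrix.trace_smul, Matrix.mul_sub, Matrix.trace_sub, h2, h3,
        smul_eq_mul]
    have h5 : star (Matrix.trace (Z * P * Y)) - Matrix.trace (Z * P * Y) = 0 := by
      apply Complex.ext
      · simp
      · simp [him]
    rw [h5, mul_zero] at h4
    rw [h1] at h4
    exact_mod_cast h4
  have hK0 : K = 0 := by
    rw [hκ]
    have : κ = fun _ => 0 := funext hκ0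
    rw [this]
    unfold cj dg
    simp
  have : Z * Y - Y * Z = 0 := by
    rw [hK] at hK0
    exact (smul_eq_zero.1 hK0).resolve_left Complex.I_ne_zero
  exact sub_eq_zero.1 this

/-- entries of `G * dg t * Gᴴ` on the diagonal -/
theorem diag_conj (G : Matrix (Fin n) (Fin n) ℂ) (t : Fin n → ℝ) (k : Fin n) :
    (G * dg t * Gᴴ) k k = ((∑ i, t i * Complex.normSq (G k i) : ℝ) : ℂ) := by
  rw [Matrix.mul_apply]
  push_cast
  apply Finset.sum_congr rfl
  intro i _
  unfold dg
  rw [Matrix.mul_diagonal, Matrix.conjTranspose_apply, Complex.normSq_eq_conj_mul_self]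
  simp only [Complex.star_def]
  ring

theorem diag_conj' (G : Matrix (Fin n) (Fin n) ℂ) (t : Fin n → ℝ) (i : Fin n) :
    (Gᴴ * dg t * G) i i = ((∑ k, t k * Complex.normSq (G k i) : ℝ) : ℂ) := by
  rw [Matrix.mul_apply]
  push_cast
  apply Finset.sum_congr rfl
  intro k _
  unfold dg
  rw [Matrix.mul_diagonal, Matrix.conjTranspose_apply, Complex.normSq_eq_conj_mul_self]
  simp only [Complex.star_def]
  ring

theorem dg_one : dg (fun _ : Fin n => (1:ℝ)) = 1 := by
  unfold dg
  simp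

theorem diag_self (G : Matrix (Fin n) (Fin n) ℂ) (k : Fin n) :
    (G * Gᴴ) k k = ((∑ i, Complex.normSq (G k i) : ℝ) : ℂ) := by
  have := diag_conj G (fun _ => 1) k
  rw [dg_one, Matrix.mul_one] at this
  simpa using this

theorem diag_self' (G : Matrix (Fin n) (Fin n) ℂ) (i : Fin n) :
    (Gᴴ * G) i i = ((∑ k, Complex.normSq (G k i) : ℝ) : ℂ) := by
  have := diag_conj' G (fun _ => 1) i
  rw [dg_one, Matrix.mul_one] at this
  simpa using this

/-- Row inequality. `G = q * U`, `C = dg τ`, `A = cj U t`, `N = C - A`. -/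
theorem row_ineq {q U : Matrix (Fin n) (Fin n) ℂ} (hU : U ∈ Matrix.unitaryGroup (Fin n) ℂ)
    {t τ : Fin n → ℝ} (ht : ∀ i, 0 ≤ t i) (hqH : qᴴ = q)
    (hqC : q * dg τ = dg τ * q) (hqA : q * cj U t = cj U t * q)
    (hN : (q * (dg τ - cj U t) * q).PosSemidef) (i : Fin n) (hti : 0 < t i) :
    t i * ∑ k, (τ k)⁻¹ * Complex.normSq ((q * U) k i) ≤ ∑ k, Complex.normSq ((q * U) k i) := by
  set G := q * U with hG
  set T := dg (fun k => (τ k)⁻¹) with hT
  have hTH : Tᴴ = T := dg_conjTranspose _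
  have hqT : q * T = T * q := by
    have h1 : q * cj 1 τ = cj 1 τ * q := by
      unfold cj; simpa using hqC
    have h2 := comm_fun (U := 1) (one_mem _) (α := τ) (β := fun k => (τ k)⁻¹) h1
      (fun i j hij => by simp [hij])
    unfold cj at h2
    simpa using h2
  set Y := T * G with hY
  set η : ℝ := ∑ k, (τ k)⁻¹ * Complex.normSq (G k i) with hη
  set S : ℝ := ∑ k, Complex.normSq (G k i) with hS
  set A := cj U t with hA
  have hAG : A * G = G * dg t := by
    rw [hG, ← Matrix.mul_assoc, ← hqA, Matrix.mul_assoc, hA, cj_col hU, Matrix.mul_assoc]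
  have hAH : Aᴴ = A := cj_conjTranspose _ _
  have hGA : Gᴴ * A = dg t * Gᴴ := by
    have := congrArg Matrix.conjTranspose hAG
    rw [Matrix.conjTranspose_mul A G, Matrix.conjTranspose_mul G (dg t), hAH,
      dg_conjTranspose] at this
    exact this
  -- (1) Yᴴ C Y
  have e1 : (Yᴴ * dg τ * Y) i i = (η : ℂ) := by
    have : Yᴴ * dg τ * Y = Gᴴ * dg (fun k => (τ k)⁻¹) * G := by
      rw [hY, Matrix.conjTranspose_mul, hTH]
      have h3 : T * dg τ * T = dg (fun k => (τ k)⁻¹) := by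
        rw [hT, dg_mul, dg_mul]
        congr 1
        funext k
        by_cases hk : τ k = 0
        · simp [hk]
        · field_simp
      calc Gᴴ * T * dg τ * (T * G) = Gᴴ * (T * dg τ * T) * G := by simp only [Matrix.mul_assoc]
        _ = _ := by rw [h3]
    rw [this, diag_conj']
  -- (2) Yᴴ N Y ≥ 0
  have e2 : 0 ≤ ((Yᴴ * (dg τ - A) * Y) i i).re := by
    have hYq : Y = q * (T * U) := by
      rw [hY, hG, ← Matrix.mul_assoc, ← hqT, Matrix.mul_assoc]
    have : Yᴴ * (dg τ - A) * Y = (T * U)ᴴ * (q * (dg τ - A) * q) * (T * U) := by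
      rw [hYq, Matrix.conjTranspose_mul q (T * U), hqH]
      simp only [Matrix.mul_assoc]
    rw [this]
    have hp := (hN.conjTranspose_mul_mul_same (T * U)).diag_nonneg (i := i)
    exact (Complex.le_def.1 hp).1
  -- (3) cross terms
  have e3 : (Yᴴ * A * G) i i = ((t i * η : ℝ) : ℂ) := by
    rw [Matrix.mul_assoc, hAG, ← Matrix.mul_assoc]
    unfold dg
    rw [Matrix.mul_diagonal, hY, Matrix.conjTranspose_mul, hTH, hT, diag_conj']
    push_cast
    rw [hη]
    push_cast
    ring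
  have e4 : (Gᴴ * A * Y) i i = ((t i * η : ℝ) : ℂ) := by
    rw [hGA, Matrix.mul_assoc]
    unfold dg
    rw [Matrix.diagonal_mul, hY, ← Matrix.mul_assoc, hT, diag_conj']
    push_cast
    rw [hη]
    push_cast
    ring
  have e5 : (Gᴴ * A * G) i i = ((t i * S : ℝ) : ℂ) := by
    rw [hGA, Matrix.mul_assoc]
    unfold dg
    rw [Matrix.diagonal_mul, diag_self', hS]
    push_cast
    ring
  -- (4) psd of A on Y - G / t
  have hApsd : A.PosSemidef := cj_psd ht
  set c : ℂ := (((t i)⁻¹ : ℝ) : ℂ) with hc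
  have e6 := (hApsd.conjTranspose_mul_mul_same (Y - c • G)).diag_nonneg (i := i)
  have e7 : (Y - c • G)ᴴ * A * (Y - c • G) = Yᴴ * A * Y - c • (Yᴴ * A * G)
      - c • (Gᴴ * A * Y) + (c * c) • (Gᴴ * A * G) := by
    have hcs : star c = c := by rw [hc]; simp
    rw [Matrix.conjTranspose_sub, Matrix.conjTranspose_smul, hcs]
    simp only [Matrix.sub_mul, Matrix.mul_sub, Matrix.smul_mul, Matrix.mul_smul, smul_sub,
      smul_smul]
    abel
  rw [e7] at e6
  have e8 := (Complex.le_def.1 e6).1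
  simp only [Matrix.add_apply, Matrix.sub_apply, Matrix.smul_apply, smul_eq_mul, e3, e4, e5, hc,
    ← Complex.ofReal_mul] at e8
  simp only [Complex.zero_re, Complex.add_re, Complex.sub_re, Complex.ofReal_re] at e8
  have e9 : ((Yᴴ * (dg τ - A) * Y) i i).re = η - ((Yᴴ * A * Y) i i).re := by
    rw [Matrix.mul_sub, Matrix.sub_mul, Matrix.sub_apply, e1, Complex.sub_re, Complex.ofReal_re]
  rw [e9] at e2
  have e10 : (t i)⁻¹ * (t i * η) = η := by field_simp
  have e11 : (t i)⁻¹ * (t i)⁻¹ * (t i * S) = (t i)⁻¹ * S := by field_simp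
  rw [e10, e11] at e8
  have e12 : η ≤ (t i)⁻¹ * S := by linarith
  calc t i * η ≤ t i * ((t i)⁻¹ * S) := mul_le_mul_of_nonneg_left e12 hti.le
    _ = S := by field_simp

end Pool.Agent.Lib.F5
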