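import Mathlib

set_option autoImplicit false

namespace Pool.Agent.Lib.F5

open Finset

/-- Hypotheses on the concave function: concave and nondecreasing on `[0,∞)`, zero at zero,
and bounded by the line `L t`. -/
structure Nice (f : ℝ → ℝ) (L : ℝ) : Prop where
  conc : ConcaveOn ℝ (Set.Ici 0) f
  mono : MonotoneOn f (Set.Ici 0)
  zero : f 0 = 0
  Lpos : 0 < L
  bound : ∀ t, 0 ≤ t → f t ≤ L * t

/-- the complementary convex function -/
def gg (f : ℝ → ℝ) (L t : ℝ) : ℝ := L * t - f t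

/-- the path of functions from `L t` to `f` -/
def FF (f : ℝ → ℝ) (L s t : ℝ) : ℝ := L * t - s * gg f L t

variable {f : ℝ → ℝ} {L : ℝ}

theorem Nice.nonneg (h : Nice f L) {t : ℝ} (ht : 0 ≤ t) : 0 ≤ f t := by
  have := h.mono (Set.mem_Ici.2 le_rfl) (Set.mem_Ici.2 ht) ht
  rw [h.zero] at this
  exact this

theorem Nice.scale (h : Nice f L) {t θ : ℝ} (ht : 0 ≤ t) (h0 : 0 ≤ θ) (h1 : θ ≤ 1) :
    θ * f t ≤ f (θ * t) := by
  have := h.conc.2 (Set.mem_Ici.2 ht) (Set.mem_Ici.2 (le_refl (0:ℝ))) h0 (sub_nonneg.2 h1) (by ring)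
  simp only [smul_eq_mul, h.zero, mul_zero, add_zero] at this
  exact this

theorem Nice.lip (h : Nice f L) {t u : ℝ} (ht : 0 ≤ t) (htu : t ≤ u) :
    f u - f t ≤ L * (u - t) := by
  rcases eq_or_lt_of_le (ht.trans htu) with h0 | h0
  · have ht0 : t = 0 := le_antisymm (h0 ▸ htu) ht
    subst ht0
    rw [← h0]
    simp
  · have hs := h.scale (le_of_lt h0) (div_nonneg ht h0.le) ((div_le_one h0).2 htu)
    rw [div_mul_cancel₀ _ h0.ne'] at hs
    have hb := h.bound u h0.le
    have h2 : t / u * f u = f u - f u * ((u - t) / u) := by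
      field_simp
      ring
    have h3 : f u * ((u - t) / u) ≤ L * u * ((u - t) / u) :=
      mul_le_mul_of_nonneg_right hb (div_nonneg (sub_nonneg.2 htu) h0.le)
    have h4 : L * u * ((u - t) / u) = L * (u - t) := by
      field_simp
    linarith

theorem Nice.gg_mono (h : Nice f L) {t u : ℝ} (ht : 0 ≤ t) (htu : t ≤ u) :
    gg f L t ≤ gg f L u := by
  have := h.lip ht htu
  unfold gg
  linarith

theorem Nice.gg_zero (h : Nice f L) : gg f L 0 = 0 := by
  simp [gg, h.zero]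

theorem Nice.gg_nonneg (h : Nice f L) {t : ℝ} (ht : 0 ≤ t) : 0 ≤ gg f L t := by
  have := h.bound t ht
  unfold gg
  linarith

theorem FF_eq (s t : ℝ) : FF f L s t = (1 - s) * (L * t) + s * f t := by
  unfold FF gg
  ring

theorem Nice.FF_zero (h : Nice f L) (s : ℝ) : FF f L s 0 = 0 := by
  rw [FF_eq]
  simp [h.zero]

theorem Nice.FF_strict (h : Nice f L) {s t u : ℝ} (hs0 : 0 ≤ s) (hs1 : s < 1) (ht : 0 ≤ t)
    (htu : t < u) : FF f L s t < FF f L s u := by
  rw [FF_eq, FF_eq]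
  have h1 : f t ≤ f u := h.mono (Set.mem_Ici.2 ht) (Set.mem_Ici.2 (ht.trans htu.le)) htu.le
  have h2 : (1 - s) * (L * t) < (1 - s) * (L * u) :=
    mul_lt_mul_of_pos_left (mul_lt_mul_of_pos_left htu h.Lpos) (sub_pos.2 hs1)
  have h3 : s * f t ≤ s * f u := mul_le_mul_of_nonneg_left h1 hs0
  linarith

theorem Nice.FF_mono (h : Nice f L) {s t u : ℝ} (hs0 : 0 ≤ s) (hs1 : s ≤ 1) (ht : 0 ≤ t)
    (htu : t ≤ u) : FF f L s t ≤ FF f L s u := by
  rw [FF_eq, FF_eq]
  have h1 : f t ≤ f u := h.mono (Set.mem_Ici.2 ht) (Set.mem_Ici.2 (ht.trans htu)) htu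
  have h2 : (1 - s) * (L * t) ≤ (1 - s) * (L * u) :=
    mul_le_mul_of_nonneg_left (mul_le_mul_of_nonneg_left htu h.Lpos.le) (sub_nonneg.2 hs1)
  have h3 : s * f t ≤ s * f u := mul_le_mul_of_nonneg_left h1 hs0
  linarith

theorem Nice.FF_nonneg (h : Nice f L) {s t : ℝ} (hs0 : 0 ≤ s) (hs1 : s ≤ 1) (ht : 0 ≤ t) :
    0 ≤ FF f L s t := by
  have := h.FF_mono hs0 hs1 le_rfl ht
  rwa [h.FF_zero] at this

theorem Nice.FF_pos_iff (h : Nice f L) {s t : ℝ} (hs0 : 0 ≤ s) (hs1 : s < 1) (ht : 0 ≤ t) :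
    0 < FF f L s t ↔ 0 < t := by
  constructor
  · intro hp
    rcases eq_or_lt_of_le ht with h0 | h0
    · rw [← h0, h.FF_zero] at hp
      exact absurd hp (lt_irrefl _)
    · exact h0
  · intro hp
    have := h.FF_strict hs0 hs1 le_rfl hp
    rwa [h.FF_zero] at this

theorem Nice.FF_inj (h : Nice f L) {s t u : ℝ} (hs0 : 0 ≤ s) (hs1 : s < 1) (ht : 0 ≤ t)
    (hu : 0 ≤ u) (he : FF f L s t = FF f L s u) : t = u := by
  rcases lt_trichotomy t u with h1 | h1 | h1
  · exact absurd he (h.FF_strict hs0 hs1 ht h1).ne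
  · exact h1
  · exact absurd he (h.FF_strict hs0 hs1 hu h1).ne'

theorem Nice.FF_lip (h : Nice f L) {s t u : ℝ} (hs0 : 0 ≤ s) (ht : 0 ≤ t)
    (htu : t ≤ u) : FF f L s u - FF f L s t ≤ L * (u - t) := by
  have := h.gg_mono ht htu
  have h2 : s * gg f L t ≤ s * gg f L u := mul_le_mul_of_nonneg_left this hs0
  unfold FF
  linarith

/-- Jensen with deficient weights for the concave function. -/
theorem Nice.jensen (h : Nice f L) {n : ℕ} {p x : Fin n → ℝ} {P : ℝ} (hp : ∀ i, 0 ≤ p i)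
    (hx : ∀ i, 0 ≤ x i) (hP : 0 < P) (hsum : ∑ i, p i ≤ P) :
    ∑ i, p i * f (x i) ≤ P * f ((∑ i, p i * x i) / P) := by
  rcases eq_or_lt_of_le (Finset.sum_nonneg (fun i (_ : i ∈ Finset.univ) => hp i)) with h0 | h0
  · have hz : ∀ i, p i = 0 := by
      intro i
      have := (Finset.sum_eq_zero_iff_of_nonneg (fun i (_ : i ∈ Finset.univ) => hp i)).1 h0.symm
      exact this i (Finset.mem_univ i)
    simp [hz, h.zero]
  · set σ := ∑ i, p i with hσ
    have hJ := h.conc.le_map_sum (t := Finset.univ) (w := fun i => p i / σ) (p := x)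
      (fun i _ => div_nonneg (hp i) h0.le)
      (by rw [← Finset.sum_div, ← hσ, div_self h0.ne'])
      (fun i _ => Set.mem_Ici.2 (hx i))
    simp only [smul_eq_mul] at hJ
    have e1 : ∑ i, p i / σ * f (x i) = (∑ i, p i * f (x i)) / σ := by
      rw [Finset.sum_div]
      exact Finset.sum_congr rfl (fun i _ => by ring)
    have e2 : ∑ i, p i / σ * x i = (∑ i, p i * x i) / σ := by
      rw [Finset.sum_div]
      exact Finset.sum_congr rfl (fun i _ => by ring)
    rw [e1, e2] at hJ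
    have hS : 0 ≤ ∑ i, p i * x i := Finset.sum_nonneg (fun i _ => mul_nonneg (hp i) (hx i))
    have hsc := h.scale (t := (∑ i, p i * x i) / σ) (θ := σ / P) (div_nonneg hS h0.le)
      (div_nonneg h0.le hP.le) ((div_le_one hP).2 hsum)
    have e3 : σ / P * ((∑ i, p i * x i) / σ) = (∑ i, p i * x i) / P := by
      field_simp
    rw [e3] at hsc
    have h5 : (∑ i, p i * f (x i)) ≤ σ * f ((∑ i, p i * x i) / σ) := by
      rw [div_le_iff₀ h0] at hJ
      linarith
    have h6 : σ * f ((∑ i, p i * x i) / σ) ≤ P * f ((∑ i, p i * x i) / P) := by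
      have := mul_le_mul_of_nonneg_left hsc hP.le
      have e4 : P * (σ / P * f ((∑ i, p i * x i) / σ)) = σ * f ((∑ i, p i * x i) / σ) := by
        field_simp
      rw [e4] at this
      exact this
    linarith

/-- The key scalar comparison (J'). -/
theorem Nice.key (h : Nice f L) {s : ℝ} (hs0 : 0 ≤ s) (hs1 : s < 1) {n : ℕ}
    {p x : Fin n → ℝ} {P α : ℝ} (hp : ∀ i, 0 ≤ p i)
    (hx : ∀ i, 0 ≤ x i) (hα : 0 ≤ α) (hsum : ∑ i, p i ≤ P)
    (hle : P * FF f L s α ≤ ∑ i, p i * FF f L s (x i)) :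
    P * gg f L α ≤ ∑ i, p i * gg f L (x i) := by
  have hP0 : 0 ≤ P := (Finset.sum_nonneg (fun i (_ : i ∈ Finset.univ) => hp i)).trans hsum
  rcases eq_or_lt_of_le hP0 with hP | hP
  · rw [← hP, zero_mul]
    exact Finset.sum_nonneg (fun i _ => mul_nonneg (hp i) (h.gg_nonneg (hx i)))
  · set xb := (∑ i, p i * x i) / P with hxb
    have hS : 0 ≤ ∑ i, p i * x i := Finset.sum_nonneg (fun i _ => mul_nonneg (hp i) (hx i))
    have hxb0 : 0 ≤ xb := div_nonneg hS hP.le
    have hPx : P * xb = ∑ i, p i * x i := by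
      rw [hxb]; field_simp
    have hJ := h.jensen hp hx hP hsum
    rw [← hxb] at hJ
    set G := ∑ i, p i * gg f L (x i) with hG
    have hGe : G = L * (P * xb) - ∑ i, p i * f (x i) := by
      rw [hG, hPx, Finset.mul_sum, ← Finset.sum_sub_distrib]
      exact Finset.sum_congr rfl (fun i _ => by unfold gg; ring)
    have hGx : P * gg f L xb ≤ G := by
      rw [hGe]; unfold gg; linarith
    have hFs : ∑ i, p i * FF f L s (x i) = L * (P * xb) - s * G := by
      rw [hG, hPx, Finset.mul_sum, Finset.mul_sum, ← Finset.sum_sub_distrib]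
      exact Finset.sum_congr rfl (fun i _ => by unfold FF; ring)
    rcases le_or_gt α xb with hc | hc
    · have := h.gg_mono hα hc
      exact (mul_le_mul_of_nonneg_left this hP.le).trans hGx
    · exfalso
      have h1 := h.FF_strict hs0 hs1 hxb0 hc
      have h2 : P * FF f L s xb < P * FF f L s α := mul_lt_mul_of_pos_left h1 hP
      have h3 : L * (P * xb) - s * G ≤ P * FF f L s xb := by
        have : s * (P * gg f L xb) ≤ s * G := mul_le_mul_of_nonneg_left hGx hs0
        unfold FF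
        linarith
      rw [hFs] at hle
      linarith

end Pool.Agent.Lib.F5
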