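import Pool.Agent.Lib.MP_f5ec7d_an.Main

set_option autoImplicit false

namespace Pool.Agent.Lib.F5

open Matrix Finset
open scoped ComplexOrder

variable {n : ℕ} {f : ℝ → ℝ} {L : ℝ}

theorem nsq_conj {V Y : Matrix (Fin n) (Fin n) ℂ} (hV : V ∈ Matrix.unitaryGroup (Fin n) ℂ) :
    nsq (V * Y * Vᴴ) = nsq Y := by
  unfold nsq
  congr 1
  rw [Matrix.conjTranspose_mul, Matrix.conjTranspose_mul, Matrix.conjTranspose_conjTranspose]
  have : V * Y * Vᴴ * (V * (Yᴴ * Vᴴ)) = V * (Y * Yᴴ) * Vᴴ := by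
    calc V * Y * Vᴴ * (V * (Yᴴ * Vᴴ)) = V * Y * (Vᴴ * V) * (Yᴴ * Vᴴ) := by
          simp only [Matrix.mul_assoc]
      _ = V * (Y * Yᴴ) * Vᴴ := by rw [uu' hV, Matrix.mul_one]; simp only [Matrix.mul_assoc]
  rw [this, Matrix.trace_mul_comm, ← Matrix.mul_assoc, uu' hV, Matrix.one_mul]

theorem nsq_neg (M : Matrix (Fin n) (Fin n) ℂ) : nsq (-M) = nsq M := by
  unfold nsq
  simp

theorem nsq_sub_of_herm {R S : Matrix (Fin n) (Fin n) ℂ} (hR : Rᴴ = R) (hS : Sᴴ = S) :
    nsq (R - S) = nsq R - 2 * (Matrix.trace (R * S)).re + nsq S := by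
  have := nsq_add_of_herm hR (S := -S) (by simp [hS])
  rw [← sub_eq_add_neg, nsq_neg] at this
  rw [this]
  simp only [Matrix.mul_neg, Matrix.trace_neg, Complex.neg_re]
  ring

theorem comm_min {Z U : Matrix (Fin n) (Fin n) ℂ} (hZ : Zᴴ = Z) {α : Fin n → ℝ}
    (hmin : ∀ V ∈ Matrix.unitaryGroup (Fin n) ℂ,
      nsq (Z - cj U α) ≤ nsq (Z - cj (V * U) α)) :
    (Z - cj U α) * cj U α = cj U α * (Z - cj U α) := by
  have hY : (cj U α)ᴴ = cj U α := cj_conjTranspose _ _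
  have h1 : Z * cj U α = cj U α * Z := by
    apply comm_of_max hZ hY
    intro V hV
    have h2 := hmin V hV
    have hVY : (V * cj U α * Vᴴ)ᴴ = V * cj U α * Vᴴ := by
      rw [Matrix.conjTranspose_mul, Matrix.conjTranspose_mul, Matrix.conjTranspose_conjTranspose,
        hY, Matrix.mul_assoc]
    rw [cj_mul, nsq_sub_of_herm hZ hY, nsq_sub_of_herm hZ hVY, nsq_conj hV] at h2
    linarith
  rw [Matrix.sub_mul, Matrix.mul_sub, h1]

theorem householder {w v : Fin n → ℂ} (hw : star w ⬝ᵥ w = 1) (hv : star v ⬝ᵥ v = 1) {κ : ℝ}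
    (hk : star w ⬝ᵥ v = (κ : ℂ)) :
    ∃ H ∈ Matrix.unitaryGroup (Fin n) ℂ, H *ᵥ w = v ∧
      ∀ X : Matrix (Fin n) (Fin n) ℂ, Xᴴ = X → ∀ y : ℝ, X *ᵥ w = (y : ℂ) • w →
        X *ᵥ v = (y : ℂ) • v → H * X = X * H := by
  set u := w - v with hu
  have hvw : star v ⬝ᵥ w = (κ : ℂ) := by
    rw [Matrix.star_dotProduct, hk]; simp
  have hnu : star u ⬝ᵥ u = ((2 - 2 * κ : ℝ) : ℂ) := by
    rw [hu, star_sub, sub_dotProduct, dotProduct_sub, dotProduct_sub, hw, hv, hk, hvw]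
    push_cast; ring
  have huw : star u ⬝ᵥ w = ((1 - κ : ℝ) : ℂ) := by
    rw [hu, star_sub, sub_dotProduct, hw, hvw]
    push_cast; ring
  by_cases hu0 : u = 0
  · refine ⟨1, one_mem _, ?_, ?_⟩
    · rw [Matrix.one_mulVec]
      exact sub_eq_zero.1 hu0
    · intro X _ y _ _
      rw [Matrix.one_mul, Matrix.mul_one]
  · have hne : (2 - 2 * κ : ℝ) ≠ 0 := by
      intro h0
      rw [h0] at hnu
      simp only [Complex.ofReal_zero] at hnu
      exact hu0 (dotProduct_star_self_eq_zero.1 hnu)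
    set P : Matrix (Fin n) (Fin n) ℂ := (((2 - 2 * κ : ℝ)⁻¹ : ℝ) : ℂ) • vecMulVec u (star u)
      with hP
    have hPP : P * P = P := by
      rw [hP, Matrix.smul_mul, Matrix.mul_smul, vecMulVec_mul_vecMulVec, hnu,
        Matrix.vecMulVec_smul, smul_smul, smul_smul]
      congr 1
      rw [← Complex.ofReal_mul, ← Complex.ofReal_mul]
      congr 1
      field_simp
    have hPH : Pᴴ = P := by
      rw [hP, Matrix.conjTranspose_smul, conjTranspose_vecMulVec, star_star]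
      congr 1
      simp
    have hz : (-2:ℂ) + star (-2:ℂ) + (-2:ℂ) * star (-2:ℂ) = 0 := by
      have : star (-2:ℂ) = -2 := by
        simp
      rw [this]; ring
    refine ⟨1 + (-2:ℂ) • P, unitary_one_add hPP hPH hz, ?_, ?_⟩
    · rw [Matrix.add_mulVec, Matrix.one_mulVec, Matrix.smul_mulVec, hP, Matrix.smul_mulVec,
        vecMulVec_mulVec, huw]
      have : (MulOpposite.op ((1 - κ : ℝ) : ℂ)) • u = ((1 - κ : ℝ) : ℂ) • u := by
        ext i; simp [mul_comm]
      rw [this, smul_smul, smul_smul]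
      have h2 : (-2:ℂ) * ((((2 - 2 * κ : ℝ)⁻¹ : ℝ) : ℂ) * ((1 - κ : ℝ) : ℂ)) = -1 := by
        have h3 : (2 - 2 * κ : ℝ)⁻¹ * (1 - κ) = 1 / 2 := by
          have : (2 - 2 * κ : ℝ) = 2 * (1 - κ) := by ring
          rw [this] at hne ⊢
          have h4 : (1 - κ : ℝ) ≠ 0 := by
            intro h5; apply hne; rw [h5]; ring
          field_simp
        rw [← Complex.ofReal_mul, h3]
        push_cast
        norm_num
      rw [← mul_assoc] at h2
      rw [h2, neg_one_smul, hu]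
      abel
    · intro X hX y hXw hXv
      have hXu : X *ᵥ u = (y : ℂ) • u := by
        rw [hu, Matrix.mulVec_sub, hXw, hXv, smul_sub]
      have huX : star u ᵥ* X = (y : ℂ) • star u := by
        have h1 : star (X *ᵥ u) = star u ᵥ* Xᴴ := Matrix.star_mulVec X u
        rw [hX, hXu] at h1
        rw [← h1]
        simp
      have hPX : P * X = X * P := by
        rw [hP, Matrix.smul_mul, Matrix.mul_smul, Matrix.vecMulVec_mul, Matrix.mul_vecMulVec, hXu,
          huX, Matrix.vecMulVec_smul, Matrix.smul_vecMulVec]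
      rw [Matrix.add_mul, Matrix.mul_add, Matrix.one_mul, Matrix.mul_one, Matrix.smul_mul,
        Matrix.mul_smul, hPX]

theorem cj_single (W : Matrix (Fin n) (Fin n) ℂ) (l : Fin n) (δ : ℝ) :
    cj W (Pi.single l δ) = (δ : ℂ) • vecMulVec (fun k => W k l) (star (fun k => W k l)) := by
  ext i j
  unfold cj dg
  rw [Matrix.mul_apply, Matrix.smul_apply, Matrix.vecMulVec_apply]
  rw [Finset.sum_eq_single l]
  · rw [Matrix.mul_diagonal, Matrix.conjTranspose_apply]
    simp only [Pi.single_eq_same, Pi.star_apply, smul_eq_mul]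
    ring
  · intro k _ hk
    rw [Matrix.mul_diagonal]
    simp [Pi.single_eq_of_ne hk]
  · intro h; exact absurd (Finset.mem_univ l) h

theorem nsq_smul_proj {v : Fin n → ℂ} (hv : star v ⬝ᵥ v = 1) (δ : ℝ) :
    nsq ((δ : ℂ) • vecMulVec v (star v)) = δ ^ 2 := by
  unfold nsq
  rw [Matrix.conjTranspose_smul, conjTranspose_vecMulVec, star_star, Matrix.smul_mul,
    Matrix.mul_smul, vecMulVec_mul_vecMulVec, hv, one_smul, Matrix.trace_smul, Matrix.trace_smul,
    Matrix.trace_vecMulVec, dotProduct_comm, hv]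
  simp [sq]

theorem unit_dot {W : Matrix (Fin n) (Fin n) ℂ} (hW : W ∈ Matrix.unitaryGroup (Fin n) ℂ)
    (l : Fin n) : star (fun k => W k l) ⬝ᵥ (fun k => W k l) = 1 := by
  have h1 := congrFun (congrFun (uu' hW) l) l
  rw [Matrix.mul_apply, Matrix.one_apply_eq] at h1
  rw [← h1]
  rfl

/-- Stationarity (c) -/
theorem neg_prop (h : Nice f L) {s : ℝ} (hs0 : 0 ≤ s) (hs1 : s < 1)
    {W R : Matrix (Fin n) (Fin n) ℂ} (hW : W ∈ Matrix.unitaryGroup (Fin n) ℂ)
    {x b : Fin n → ℝ} (hx : ∀ i, 0 ≤ x i) (hxb : ∀ i, x i ≤ b i) (hRH : Rᴴ = R)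
    (hmin : ∀ W' ∈ Matrix.unitaryGroup (Fin n) ℂ, ∀ x' : Fin n → ℝ, (∀ i, 0 ≤ x' i) →
      (∀ i, x' i ≤ b i) → nsq R ≤ nsq (R + cj W (fun i => FF f L s (x i)) -
        cj W' (fun i => FF f L s (x' i)))) :
    ∀ M : Matrix (Fin n) (Fin n) ℂ,
      M * cj W (fun i => FF f L s (x i)) = cj W (fun i => FF f L s (x i)) * M →
      ∀ j, 0 < x j → 0 ≤ (((M * W)ᴴ * R * (M * W)) j j).re := by
  intro M hM j hj
  set X := cj W (fun i => FF f L s (x i)) with hX
  have hXH : Xᴴ = X := cj_conjTranspose _ _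
  set v : Fin n → ℂ := fun k => (M * W) k j with hv
  have hval : ((M * W)ᴴ * R * (M * W)) j j = star v ⬝ᵥ (R *ᵥ v) := by
    rw [Matrix.mul_assoc, Matrix.mul_apply]
    rfl
  rw [hval]
  have hXv : X *ᵥ v = ((FF f L s (x j) : ℝ) : ℂ) • v := by
    have h1 : X * (M * W) = M * W * dg (fun i => FF f L s (x i)) := by
      rw [← Matrix.mul_assoc, ← hM, Matrix.mul_assoc, hX, cj_col hW, Matrix.mul_assoc]
    ext k
    have h2 := congrFun (congrFun h1 k) j
    unfold dg at h2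
    rw [Matrix.mul_diagonal, Matrix.mul_apply] at h2
    rw [Pi.smul_apply, smul_eq_mul, mul_comm]
    exact h2
  by_cases hv0 : v = 0
  · rw [hv0]; simp
  -- find a column of `W` not orthogonal to `v`
  obtain ⟨l, hl⟩ : ∃ l, star (fun k => W k l) ⬝ᵥ v ≠ 0 := by
    by_contra hcon
    push Not at hcon
    apply hv0
    have h1 : Wᴴ *ᵥ v = 0 := by
      ext l
      exact hcon l
    have h2 : W *ᵥ (Wᴴ *ᵥ v) = v := by
      rw [Matrix.mulVec_mulVec, uu hW, Matrix.one_mulVec]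
    rw [← h2, h1, Matrix.mulVec_zero]
  set w : Fin n → ℂ := fun k => W k l with hw
  have hww : star w ⬝ᵥ w = 1 := unit_dot hW l
  have hXw : X *ᵥ w = ((FF f L s (x l) : ℝ) : ℂ) • w := by
    have h1 : X * W = W * dg (fun i => FF f L s (x i)) := by rw [hX, cj_col hW]
    ext k
    have h2 := congrFun (congrFun h1 k) l
    unfold dg at h2
    rw [Matrix.mul_diagonal, Matrix.mul_apply] at h2
    rw [Pi.smul_apply, smul_eq_mul, mul_comm]
    exact h2
  have hlj : x l = x j := by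
    have h1 : star w ⬝ᵥ (X *ᵥ v) = (star w ᵥ* X) ⬝ᵥ v := Matrix.dotProduct_mulVec _ _ _
    have h2 : star w ᵥ* X = ((FF f L s (x l) : ℝ) : ℂ) • star w := by
      have h3 : star (X *ᵥ w) = star w ᵥ* Xᴴ := Matrix.star_mulVec X w
      rw [hXH, hXw] at h3
      rw [← h3]
      simp
    rw [h2, hXv, dotProduct_smul, smul_dotProduct, smul_eq_mul, smul_eq_mul] at h1
    have h4 : ((FF f L s (x j) : ℝ) : ℂ) = ((FF f L s (x l) : ℝ) : ℂ) := mul_right_cancel₀ hl h1
    have h5 : FF f L s (x j) = FF f L s (x l) := by exact_mod_cast h4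
    exact (h.FF_inj hs0 hs1 (hx j) (hx l) h5).symm
  -- normalise `v`
  set N : ℝ := (star v ⬝ᵥ v).re with hN
  have hNc : star v ⬝ᵥ v = (N : ℂ) := by
    have h1 := dotProduct_star_self_nonneg v
    apply Complex.ext
    · simp [hN]
    · simpa using (Complex.le_def.1 h1).2.symm
  have hNpos : 0 < N := by
    have h1 := (Complex.le_def.1 (dotProduct_star_self_nonneg v)).1
    rcases eq_or_lt_of_le h1 with h2 | h2
    · exfalso
      apply hv0
      apply dotProduct_star_self_eq_zero.1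
      rw [hNc]
      have : N = 0 := by rw [hN]; exact h2.symm
      rw [this]; simp
    · exact h2
  set ζ := star w ⬝ᵥ v with hζ
  have hζn : 0 < ‖ζ‖ := norm_pos_iff.2 hl
  set r : ℂ := star ζ * (((‖ζ‖ * Real.sqrt N)⁻¹ : ℝ) : ℂ) with hr
  have hsN : 0 < Real.sqrt N := Real.sqrt_pos.2 hNpos
  have hζζ : star ζ * ζ = ((‖ζ‖ ^ 2 : ℝ) : ℂ) := by
    rw [Complex.star_def, ← Complex.normSq_eq_conj_mul_self, Complex.normSq_eq_norm_sq]
  have hrr : star r * r = ((N⁻¹ : ℝ) : ℂ) := by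
    have e1 : star r * r = (star ζ * ζ) * ((((‖ζ‖ * Real.sqrt N)⁻¹ : ℝ) : ℂ) *
        (((‖ζ‖ * Real.sqrt N)⁻¹ : ℝ) : ℂ)) := by
      rw [hr, star_mul', star_star]
      have : star ((((‖ζ‖ * Real.sqrt N)⁻¹ : ℝ)) : ℂ) = ((((‖ζ‖ * Real.sqrt N)⁻¹ : ℝ)) : ℂ) := by
        simp
      rw [this]; ring
    rw [e1, hζζ, ← Complex.ofReal_mul, ← Complex.ofReal_mul]
    congr 1
    have h3 : Real.sqrt N ^ 2 = N := Real.sq_sqrt hNpos.le
    have h4 : ‖ζ‖ ^ 2 * ((‖ζ‖ * √N)⁻¹ * (‖ζ‖ * √N)⁻¹) = (√N ^ 2)⁻¹ := by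
      field_simp
    rw [h4, h3]
  set v₁ := r • v with hv₁
  have hv₁v₁ : star v₁ ⬝ᵥ v₁ = 1 := by
    rw [hv₁, star_smul, smul_dotProduct, dotProduct_smul, smul_smul, hNc, hrr, smul_eq_mul,
      ← Complex.ofReal_mul, inv_mul_cancel₀ hNpos.ne']
    simp
  have hwv₁ : star w ⬝ᵥ v₁ = ((‖ζ‖ / Real.sqrt N : ℝ) : ℂ) := by
    rw [hv₁, dotProduct_smul, smul_eq_mul, ← hζ, hr]
    have : star ζ * (((‖ζ‖ * Real.sqrt N)⁻¹ : ℝ) : ℂ) * ζ =
        (star ζ * ζ) * (((‖ζ‖ * Real.sqrt N)⁻¹ : ℝ) : ℂ) := by ring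
    rw [this, hζζ, ← Complex.ofReal_mul]
    congr 1
    field_simp
  obtain ⟨H, hH, hHw, hHX⟩ := householder hww hv₁v₁ hwv₁
  have hXv₁ : X *ᵥ v₁ = ((FF f L s (x l) : ℝ) : ℂ) • v₁ := by
    rw [hv₁, Matrix.mulVec_smul, hXv, hlj, smul_comm]
  have hcomm := hHX X hXH _ hXw hXv₁
  -- the quadratic form at `v₁`
  set m : ℝ := (star v₁ ⬝ᵥ (R *ᵥ v₁)).re with hm
  have hmv : (star v ⬝ᵥ (R *ᵥ v)).re = N * m := by
    have : star v₁ ⬝ᵥ (R *ᵥ v₁) = ((N⁻¹ : ℝ) : ℂ) * (star v ⬝ᵥ (R *ᵥ v)) := by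
      rw [hv₁, star_smul, Matrix.mulVec_smul, smul_dotProduct, dotProduct_smul, smul_smul, hrr,
        smul_eq_mul]
    rw [hm, this, Complex.re_ofReal_mul]
    field_simp
  rw [hmv]
  apply mul_nonneg hNpos.le
  by_contra hneg
  push Not at hneg
  have hxl : 0 < x l := by rw [hlj]; exact hj
  -- decrease `x l`
  set ε : ℝ := min (x l) (-m / L) with hε
  have hεpos : 0 < ε := lt_min hxl (div_pos (by linarith) h.Lpos)
  set x' := Function.update x l (x l - ε) with hx'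
  have hx'0 : ∀ i, 0 ≤ x' i := by
    intro i
    by_cases hi : i = l
    · subst hi
      rw [hx', Function.update_self]
      have := min_le_left (x i) (-m / L)
      linarith
    · rw [hx', Function.update_of_ne hi]; exact hx i
  have hx'b : ∀ i, x' i ≤ b i := by
    intro i
    by_cases hi : i = l
    · subst hi
      rw [hx', Function.update_self]
      linarith [hxb i]
    · rw [hx', Function.update_of_ne hi]; exact hxb i
  set δ : ℝ := FF f L s (x l) - FF f L s (x l - ε) with hδ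
  have hxε : 0 ≤ x l - ε := by
    have := min_le_left (x l) (-m / L)
    linarith
  have hδpos : 0 < δ := by
    have := h.FF_strict hs0 hs1 hxε (show x l - ε < x l by linarith)
    linarith
  have hδle : δ ≤ -m := by
    have h1 := h.FF_lip hs0 hxε (show x l - ε ≤ x l by linarith)
    have h2 : L * (x l - (x l - ε)) ≤ -m := by
      have h3 : ε ≤ -m / L := min_le_right _ _
      have h4 : L * ε ≤ L * (-m / L) := mul_le_mul_of_nonneg_left h3 h.Lpos.le
      have h5 : L * (-m / L) = -m := by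
        have := h.Lpos.ne'
        field_simp
      have h6 : L * (x l - (x l - ε)) = L * ε := by ring
      linarith
    linarith
  have hupd : X - cj W (fun i => FF f L s (x' i)) = (δ : ℂ) • vecMulVec w (star w) := by
    rw [hX, cj_sub, ← cj_single]
    congr 1
    funext i
    by_cases hi : i = l
    · subst hi
      rw [hx', Function.update_self, Pi.single_eq_same]
    · rw [hx', Function.update_of_ne hi, Pi.single_eq_of_ne hi, sub_self]
  have hHw' : H ∈ Matrix.unitaryGroup (Fin n) ℂ := hH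
  have h1 := hmin (H * W) (mul_mem hH hW) x' hx'0 hx'b
  have h2 : R + X - cj (H * W) (fun i => FF f L s (x' i)) = R + (δ : ℂ) • vecMulVec v₁ (star v₁) := by
    have e1 : X = H * X * Hᴴ := by
      rw [hcomm, Matrix.mul_assoc, uu hH, Matrix.mul_one]
    have e2 : X - cj (H * W) (fun i => FF f L s (x' i)) =
        H * (X - cj W (fun i => FF f L s (x' i))) * Hᴴ := by
      rw [Matrix.mul_sub, Matrix.sub_mul, ← e1, cj_mul]
    have e3 : H * ((δ : ℂ) • vecMulVec w (star w)) * Hᴴ = (δ : ℂ) • vecMulVec v₁ (star v₁) := by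
      rw [Matrix.mul_smul, Matrix.smul_mul, Matrix.mul_vecMulVec, Matrix.vecMulVec_mul, hHw,
        ← Matrix.star_mulVec, hHw]
    rw [add_sub_assoc, e2, hupd, e3]
  rw [h2] at h1
  have hSH : ((δ : ℂ) • vecMulVec v₁ (star v₁))ᴴ = (δ : ℂ) • vecMulVec v₁ (star v₁) := by
    rw [Matrix.conjTranspose_smul, conjTranspose_vecMulVec, star_star]
    congr 1
    simp
  rw [nsq_add_of_herm hRH hSH, nsq_smul_proj hv₁v₁] at h1
  have h3 : (Matrix.trace (R * ((δ : ℂ) • vecMulVec v₁ (star v₁)))).re = δ * m := by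
    rw [Matrix.mul_smul, Matrix.trace_smul, Matrix.mul_vecMulVec, Matrix.trace_vecMulVec,
      smul_eq_mul, Complex.re_ofReal_mul, dotProduct_comm]
  rw [h3] at h1
  have h4 : 0 ≤ δ * (2 * m + δ) := by nlinarith
  have h5 : δ * (2 * m + δ) < 0 := mul_neg_of_pos_of_neg hδpos (by linarith)
  linarith

end Pool.Agent.Lib.F5
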